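import Mathlib

/-!
The combinatorial part of the lower bound: every sequence of queried nodes has a window with many
missing children or a deep system of nested windows.
-/

set_option autoImplicit false

namespace Pool.Agent.MP_47ff19_lc.H70

open Finset

/-- Nodes of the tree. -/
abbrev Nd (n : ℕ) : Type := {l : List Bool // l.length ≤ n}

/-- Patterns. -/
def Pat (n : ℕ) : ℕ → Type
  | 0 => Nd n × Nd n
  | m + 1 => (Nd n × Nd n) × Pat n m × Pat n m

/-- Height thresholds. -/
def Hh (m : ℕ) : ℕ := 18 * m + 1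

/-- The node `u` is queried in the window. -/
def Qd (q : ℕ → List Bool) (lo hi : ℕ) (u : List Bool) : Prop := ∃ t, lo ≤ t ∧ t < hi ∧ q t = u

/-- The parent of `x` is queried in the window. -/
def Par (q : ℕ → List Bool) (lo hi : ℕ) (x : List Bool) : Prop :=
  ∃ u β, x = u ++ [β] ∧ Qd q lo hi u

theorem Qd.mono {q : ℕ → List Bool} {lo hi lo' hi' : ℕ} {u : List Bool} (h : Qd q lo hi u)
    (h1 : lo' ≤ lo) (h2 : hi ≤ hi') : Qd q lo' hi' u := by
  obtain ⟨t, a, b, c⟩ := h
  exact ⟨t, by omega, by omega, c⟩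

theorem Par.mono {q : ℕ → List Bool} {lo hi lo' hi' : ℕ} {u : List Bool} (h : Par q lo hi u)
    (h1 : lo' ≤ lo) (h2 : hi ≤ hi') : Par q lo' hi' u := by
  obtain ⟨t, a, b, c⟩ := h
  exact ⟨t, a, b, c.mono h1 h2⟩

/-- A demanded node that is not queried in the outer window. -/
def Dem (n : ℕ) (q : ℕ → List Bool) (m lo a b hi : ℕ) (x : List Bool) : Prop :=
  Par q a b x ∧ ¬ Qd q lo hi x ∧ x.length + Hh m < n ∧ n ≤ x.length + Hh (m + 1)

/-- Systems of nested windows. -/
def St (n : ℕ) (q : ℕ → List Bool) : (m : ℕ) → Pat n m → ℕ → ℕ → ℕ → Prop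
  | 0, p, lo, hi, c => lo ≤ c ∧ c < hi ∧ p.1.1 = q c ++ [false] ∧ p.2.1 = q c ++ [true] ∧
      n ≤ (q c).length + 1
  | m + 1, p, lo, hi, c => ∃ a b c1, St n q m p.2.1 lo a c ∧ St n q m p.2.2 b hi c1 ∧ a ≤ b ∧
      p.1.1 ≠ p.1.2 ∧ Dem n q m lo a b hi p.1.1.1 ∧ Dem n q m lo a b hi p.1.2.1

theorem St.bounds {n : ℕ} {q : ℕ → List Bool} : ∀ {m : ℕ} {p : Pat n m} {lo hi c : ℕ},
    St n q m p lo hi c → lo ≤ c ∧ c < hi
  | 0, _, _, _, _, h => ⟨h.1, h.2.1⟩
  | m + 1, _, _, _, _, h => by
    obtain ⟨a, b, c1, h1, h2, h3, -⟩ := h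
    have := h1.bounds
    have := h2.bounds
    omega

/-- There is a system inside the window. -/
def Has (n : ℕ) (q : ℕ → List Bool) (m lo hi : ℕ) : Prop :=
  ∃ lo' hi' c p, lo ≤ lo' ∧ hi' ≤ hi ∧ St n q m p lo' hi' c

theorem Has.lt {n : ℕ} {q : ℕ → List Bool} {m lo hi : ℕ} (h : Has n q m lo hi) : lo < hi := by
  obtain ⟨lo', hi', c, p, h1, h2, h3⟩ := h
  have := h3.bounds
  omega

/-- No window has eight missing children. -/
def NoBig (n : ℕ) (q : ℕ → List Bool) (L : ℕ) : Prop :=
  ∀ lo hi, hi ≤ L → ∀ X : Finset (Nd n), (∀ x ∈ X, Par q lo hi x.1 ∧ ¬ Qd q lo hi x.1) → #X ≤ 7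

/-- Antichains. -/
def Anti (K : Finset (List Bool)) : Prop := ∀ x ∈ K, ∀ y ∈ K, x <+: y → x = y

/-- Few incomparable high nodes are queried in the window. -/
def Bd (n : ℕ) (q : ℕ → List Bool) (H lo hi j : ℕ) : Prop :=
  ∀ K : Finset (List Bool), Anti K → (∀ x ∈ K, x.length + H ≤ n ∧ Qd q lo hi x) → #K ≤ j

theorem Anti.sub {K K' : Finset (List Bool)} (h : Anti K) (hs : K' ⊆ K) : Anti K' :=
  fun x hx y hy => h x (hs hx) y (hs hy)

theorem Anti.eq_of_prefix {K : Finset (List Bool)} (h : Anti K) {x y z : List Bool} (hx : x ∈ K)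
    (hy : y ∈ K) (h1 : x <+: z) (h2 : y <+: z) : x = y := by
  rcases List.prefix_or_prefix_of_prefix h1 h2 with h3 | h3
  · exact h x hx y hy h3
  · exact (h y hy x hx h3).symm

theorem Bd.one (n : ℕ) (q : ℕ → List Bool) (H t : ℕ) : Bd n q H t (t + 1) 1 := by
  intro K _ h
  refine card_le_one.2 fun x hx y hy => ?_
  obtain ⟨a, a1, a2, a3⟩ := (h x hx).2
  obtain ⟨b, b1, b2, b3⟩ := (h y hy).2
  rw [← a3, ← b3, show a = b by omega]

theorem Bd.add {n : ℕ} {q : ℕ → List Bool} {H a b c i j : ℕ} (h1 : Bd n q H a b i)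
    (h2 : Bd n q H b c j) : Bd n q H a c (i + j) := by
  classical
  intro K hK h
  have e1 := h1 (K.filter (Qd q a b)) (hK.sub (filter_subset _ _)) fun x hx =>
    ⟨(h x (mem_filter.1 hx).1).1, (mem_filter.1 hx).2⟩
  have e2 := h2 (K.filter fun x => ¬ Qd q a b x) (hK.sub (filter_subset _ _)) fun x hx => by
    obtain ⟨hx1, hx2⟩ := mem_filter.1 hx
    obtain ⟨t, t1, t2, t3⟩ := (h x hx1).2
    refine ⟨(h x hx1).1, t, ?_, t2, t3⟩
    by_contra hc
    exact hx2 ⟨t, t1, by omega, t3⟩
  have := card_filter_add_card_filter_not (s := K) (Qd q a b)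
  omega

theorem exists_miss {n : ℕ} {q : ℕ → List Bool} {lo hi : ℕ} {x : List Bool} (hx : Qd q lo hi x)
    (l : List Bool) : (x ++ l).length ≤ n → ¬ Qd q lo hi (x ++ l) →
    ∃ y : Nd n, x <+: y.1 ∧ Par q lo hi y.1 ∧ ¬ Qd q lo hi y.1 := by
  induction l using List.reverseRecOn with
  | nil => intro _ h; exact absurd (by simpa using hx) h
  | append_singleton l β ih =>
    intro h1 h2
    by_cases h3 : Qd q lo hi (x ++ l)
    · exact ⟨⟨x ++ (l ++ [β]), h1⟩, List.prefix_append _ _,
        ⟨x ++ l, β, (List.append_assoc _ _ _).symm, h3⟩, h2⟩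
    · refine ih ?_ h3
      simp only [List.length_append] at h1 ⊢
      omega

theorem exists_median (T : Finset ℕ) (j : ℕ) (h : 2 * j + 1 ≤ #T) :
    ∃ t ∈ T, j ≤ #(T.filter fun s => s < t) ∧ j ≤ #(T.filter fun s => t + 1 ≤ s) := by
  let e := T.orderEmbOfFin rfl
  let i : Fin #T := ⟨j, by omega⟩
  refine ⟨e i, T.orderEmbOfFin_mem rfl i, ?_, ?_⟩
  · have : (Iio i).image e ⊆ T.filter fun s => s < e i := by
      intro s hs
      obtain ⟨a, ha, rfl⟩ := mem_image.1 hs
      exact mem_filter.2 ⟨T.orderEmbOfFin_mem rfl a, e.strictMono (mem_Iio.1 ha)⟩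
    have h1 := card_le_card this
    rw [card_image_of_injective _ e.injective, Fin.card_Iio] at h1
    exact h1
  · have : (Ioi i).image e ⊆ T.filter fun s => e i + 1 ≤ s := by
      intro s hs
      obtain ⟨a, ha, rfl⟩ := mem_image.1 hs
      exact mem_filter.2 ⟨T.orderEmbOfFin_mem rfl a, e.strictMono (mem_Ioi.1 ha)⟩
    have h1 := card_le_card this
    rw [card_image_of_injective _ e.injective, Fin.card_Ioi] at h1
    refine le_trans ?_ h1
    simp only [i]
    omega

theorem grow {K Kq : Finset (List Bool)} (hK : Anti K) (hs : Kq ⊆ K) :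
    ∃ K' : Finset (List Bool), Anti K' ∧ #K + #Kq ≤ #K' ∧
      ∀ y ∈ K', y ∈ K ∨ ∃ x ∈ Kq, ∃ β, y = x ++ [β] := by
  classical
  let g : List Bool → List Bool := fun x => if x ∈ Kq then x ++ [false] else x
  have hg : ∀ x, x <+: g x := fun x => by
    simp only [g]
    split_ifs
    · exact List.prefix_append _ _
    · exact List.prefix_refl _
  have base : ∀ y ∈ K.image g ∪ Kq.image (· ++ [true]),
      ∃ x ∈ K, x <+: y ∧ y.length = x.length + if x ∈ Kq then 1 else 0 := by
    intro y hy
    rcases mem_union.1 hy with h | h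
    · obtain ⟨x, hx, rfl⟩ := mem_image.1 h
      refine ⟨x, hx, hg x, ?_⟩
      simp only [g]
      split_ifs <;> simp
    · obtain ⟨x, hx, rfl⟩ := mem_image.1 h
      exact ⟨x, hs hx, List.prefix_append _ _, by simp [hx]⟩
  refine ⟨K.image g ∪ Kq.image (· ++ [true]), ?_, ?_, ?_⟩
  · intro y hy y' hy' h
    obtain ⟨x, hx, h1, h2⟩ := base y hy
    obtain ⟨x', hx', h1', h2'⟩ := base y' hy'
    obtain rfl := hK.eq_of_prefix hx hx' (h1.trans h) h1'
    exact h.eq_of_length (h2.trans h2'.symm)
  · rw [card_union_of_disjoint, card_image_of_injOn, card_image_of_injective]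
    · intro x y h
      exact List.append_cancel_right h
    · intro x hx y hy h
      exact hK.eq_of_prefix hx hy (hg x) (h ▸ hg y)
    · rw [disjoint_left]
      intro y h1 h2
      obtain ⟨x, hx, rfl⟩ := mem_image.1 h1
      obtain ⟨x', hx', h⟩ := mem_image.1 h2
      obtain rfl := hK.eq_of_prefix hx (hs hx') (hg x) (h ▸ List.prefix_append _ _)
      simp [g, hx'] at h
  · intro y hy
    rcases mem_union.1 hy with h | h
    · obtain ⟨x, hx, rfl⟩ := mem_image.1 h
      by_cases hq : x ∈ Kq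
      · exact Or.inr ⟨x, hq, false, by simp [g, hq]⟩
      · exact Or.inl (by simpa [g, hq] using hx)
    · obtain ⟨x, hx, rfl⟩ := mem_image.1 h
      exact Or.inr ⟨x, hx, true, rfl⟩

theorem comb {n : ℕ} {q : ℕ → List Bool} {L : ℕ} (nb : NoBig n q L) : ∀ (m lo hi : ℕ)
    (u : List Bool), hi ≤ L → u.length + Hh m ≤ n →
    (∀ l, (u ++ l).length ≤ n → Qd q lo hi (u ++ l)) → Has n q m lo hi
  | 0, lo, hi, u, _, hu, hf => by
    simp only [Hh] at hu
    obtain ⟨c, c1, c2, c3⟩ := hf (List.replicate (n - 1 - u.length) false) (by simp; omega)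
    have hl : (q c).length + 1 = n := by rw [c3]; simp; omega
    exact ⟨lo, hi, c, (⟨q c ++ [false], by simp; omega⟩, ⟨q c ++ [true], by simp; omega⟩),
      le_rfl, le_rfl, c1, c2, rfl, rfl, hl.ge⟩
  | m + 1, lo, hi, u, hL, hu, hf => by
    classical
    have ih := comb nb m
    have hH : Hh (m + 1) = Hh m + 18 := by simp only [Hh]; ring
    set H := Hh m with hHdef
    have free : ∀ a b, b ≤ L → ¬ Has n q m a b → Bd n q H a b 7 := by
      intro a b hb hn K hK h
      have h1 : ∀ x ∈ K, ∃ y : Nd n, x <+: y.1 ∧ Par q a b y.1 ∧ ¬ Qd q a b y.1 := by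
        intro x hx
        have h2 : ¬ ∀ l, (x ++ l).length ≤ n → Qd q a b (x ++ l) := fun h3 =>
          hn (ih a b x hb (h x hx).1 h3)
        push Not at h2
        obtain ⟨l, l1, l2⟩ := h2
        exact exists_miss (h x hx).2 l l1 l2
      have : Nonempty (Nd n) := ⟨⟨[], Nat.zero_le _⟩⟩
      choose! μ hμ using h1
      have h2 := nb a b hb (K.image μ) fun y hy => by
        obtain ⟨x, hx, rfl⟩ := mem_image.1 hy
        exact (hμ x hx).2
      rwa [card_image_of_injOn] at h2
      intro x hx y hy e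
      exact hK.eq_of_prefix hx hy (hμ x hx).1 (e ▸ (hμ y hy).1)
    set u0 := u ++ List.replicate (n - H - 18 - u.length) false with hu0
    have hu0l : u0.length + H + 18 = n := by rw [hu0]; simp; omega
    have h1 : ∀ f : Fin 8 → Bool, Qd q lo hi (u0 ++ List.ofFn f) := fun f => by
      rw [hu0, List.append_assoc]
      refine hf _ ?_
      rw [← List.append_assoc, ← hu0]
      simp; omega
    choose τ hτ1 hτ2 hτ3 using h1
    set T := univ.image τ with hT
    have hTc : #T = 256 := by
      rw [hT, card_image_of_injective]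
      · simp
      · intro f g e
        have := hτ3 f
        rw [e, hτ3 g] at this
        exact List.ofFn_injective (List.append_cancel_left this).symm
    have hTl : ∀ t ∈ T, (q t).length + H + 10 = n ∧ lo ≤ t ∧ t < hi := by
      intro t ht
      obtain ⟨f, -, rfl⟩ := mem_image.1 ht
      refine ⟨?_, hτ1 f, hτ2 f⟩
      rw [hτ3]; simp; omega
    have hTi : Set.InjOn q T := by
      intro s hs t ht e
      obtain ⟨f, -, rfl⟩ := mem_image.1 hs
      obtain ⟨g, -, rfl⟩ := mem_image.1 ht
      rw [hτ3, hτ3] at e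
      rw [List.ofFn_injective (List.append_cancel_left e)]
    have hTb : ∀ a b j, Bd n q H a b j → #(T.filter fun t => a ≤ t ∧ t < b) ≤ j := by
      intro a b j hB
      have := hB ((T.filter fun t => a ≤ t ∧ t < b).image q) (by
        intro x hx y hy e
        obtain ⟨s, hs, rfl⟩ := mem_image.1 hx
        obtain ⟨t, ht, rfl⟩ := mem_image.1 hy
        have e1 := (hTl s (mem_filter.1 hs).1).1
        have e2 := (hTl t (mem_filter.1 ht).1).1
        exact e.eq_of_length (by omega)) (by
        intro x hx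
        obtain ⟨s, hs, rfl⟩ := mem_image.1 hx
        obtain ⟨s1, s2, s3⟩ := mem_filter.1 hs
        have e1 := (hTl s s1).1
        exact ⟨by omega, s, s2, s3, rfl⟩)
      rwa [card_image_of_injOn (hTi.mono (coe_subset.2 (filter_subset _ _)))] at this
    have left : ∀ a j, a ≤ hi → j + 8 ≤ #(T.filter fun t => t < a) →
        ∃ e, lo ≤ e ∧ Has n q m e a ∧ Bd n q H e a 8 ∧ j ≤ #(T.filter fun t => t < e) := by
      intro a j ha hj
      have h0 : Has n q m lo a := by
        by_contra hc
        have h2 := hTb _ _ _ (free lo a (by omega) hc)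
        have h3 : (T.filter fun t => t < a) ⊆ T.filter fun t => lo ≤ t ∧ t < a := fun t ht =>
          mem_filter.2 ⟨(mem_filter.1 ht).1, (hTl t (mem_filter.1 ht).1).2.1, (mem_filter.1 ht).2⟩
        have := card_le_card h3
        omega
      set e := Nat.findGreatest (fun e => Has n q m e a) a with he
      have e1 : lo ≤ e := Nat.le_findGreatest (P := fun e => Has n q m e a) h0.lt.le h0
      have e2 : Has n q m e a := Nat.findGreatest_spec (P := fun e => Has n q m e a) h0.lt.le h0
      have e3 : ¬ Has n q m (e + 1) a :=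
        Nat.findGreatest_is_greatest (P := fun e => Has n q m e a) (Nat.lt_succ_self e) e2.lt
      have e4 : Bd n q H e a 8 := (Bd.one n q H e).add (free _ _ (by omega) e3)
      refine ⟨e, e1, e2, e4, ?_⟩
      have h2 := hTb _ _ _ e4
      have h3 : (T.filter fun t => t < a) ⊆
          (T.filter fun t => t < e) ∪ T.filter fun t => e ≤ t ∧ t < a := by
        intro t ht
        obtain ⟨t1, t2⟩ := mem_filter.1 ht
        by_cases hc : t < e
        · exact mem_union_left _ (mem_filter.2 ⟨t1, hc⟩)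
        · exact mem_union_right _ (mem_filter.2 ⟨t1, not_lt.1 hc, t2⟩)
      have := (card_le_card h3).trans (card_union_le _ _)
      omega
    have right : ∀ b j, j + 8 ≤ #(T.filter fun t => b ≤ t) →
        ∃ e, e ≤ hi ∧ Has n q m b e ∧ Bd n q H b e 8 ∧ j ≤ #(T.filter fun t => e ≤ t) := by
      intro b j hj
      have h0 : Has n q m b hi := by
        by_contra hc
        have h2 := hTb _ _ _ (free b hi hL hc)
        have h3 : (T.filter fun t => b ≤ t) ⊆ T.filter fun t => b ≤ t ∧ t < hi := fun t ht =>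
          mem_filter.2 ⟨(mem_filter.1 ht).1, (mem_filter.1 ht).2, (hTl t (mem_filter.1 ht).1).2.2⟩
        have := card_le_card h3
        omega
      have hex : ∃ e, Has n q m b e := ⟨hi, h0⟩
      set e := Nat.find hex with he
      have e1 : e ≤ hi := Nat.find_min' hex h0
      have e2 : Has n q m b e := Nat.find_spec hex
      have e2' := e2.lt
      have e3 : ¬ Has n q m b (e - 1) := Nat.find_min hex (by omega)
      have e4 : Bd n q H b e 8 := by
        have := (free _ _ (by omega) e3).add (Bd.one n q H (e - 1))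
        rwa [show e - 1 + 1 = e by omega] at this
      refine ⟨e, e1, e2, e4, ?_⟩
      have h2 := hTb _ _ _ e4
      have h3 : (T.filter fun t => b ≤ t) ⊆
          (T.filter fun t => e ≤ t) ∪ T.filter fun t => b ≤ t ∧ t < e := by
        intro t ht
        obtain ⟨t1, t2⟩ := mem_filter.1 ht
        by_cases hc : t < e
        · exact mem_union_right _ (mem_filter.2 ⟨t1, t2, hc⟩)
        · exact mem_union_left _ (mem_filter.2 ⟨t1, not_lt.1 hc⟩)
      have := (card_le_card h3).trans (card_union_le _ _)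
      omega
    obtain ⟨t, ht, ht1, ht2⟩ := exists_median T 72 (by omega)
    obtain ⟨tl, tlo, thi⟩ := hTl t ht
    by_contra hno
    let Inv : ℕ → ℕ → ℕ → Finset (List Bool) → Prop := fun s a b K =>
      lo ≤ a ∧ a ≤ b ∧ b ≤ hi ∧ 8 * (9 - s) ≤ #(T.filter fun t => t < a) ∧
      8 * (9 - s) ≤ #(T.filter fun t => b ≤ t) ∧ Bd n q H a b (16 * s + 1) ∧ Anti K ∧
      2 ^ s + 1 ≤ #K ∧
      ∀ x ∈ K, (q t).length < x.length ∧ x.length ≤ (q t).length + s + 1 ∧ Par q a b x
    have step : ∀ s a b K, s ≤ 8 → Inv s a b K → 2 ^ s ≤ 16 * (s + 1) + 1 ∧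
        ∃ a' b' K', Inv (s + 1) a' b' K' := by
      rintro s a b K hs ⟨i1, i2, i3, i4, i5, i6, i7, i8, i9⟩
      obtain ⟨a', a1, a2, a3, a4⟩ := left a (8 * (9 - (s + 1))) (by omega) (by omega)
      obtain ⟨b', b1, b2, b3, b4⟩ := right b (8 * (9 - (s + 1))) (by omega)
      have a2' := a2.lt
      have b2' := b2.lt
      have hB : Bd n q H a' b' (16 * (s + 1) + 1) := by
        have := (a3.add i6).add b3
        rwa [show 8 + (16 * s + 1) + 8 = 16 * (s + 1) + 1 by ring] at this
      have hone : #(K.filter fun x => ¬ Qd q a' b' x) ≤ 1 := by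
        refine card_le_one.2 fun x1 hx1 x2 hx2 => ?_
        by_contra hne
        obtain ⟨k1, n1⟩ := mem_filter.1 hx1
        obtain ⟨k2, n2⟩ := mem_filter.1 hx2
        obtain ⟨lo0, hi0, c, p0, r1, r2, r3⟩ := a2
        obtain ⟨lo1, hi1, c1, p1, r4, r5, r6⟩ := b2
        obtain ⟨l1, l2, l3⟩ := i9 x1 k1
        obtain ⟨l4, l5, l6⟩ := i9 x2 k2
        refine hno ⟨lo0, hi1, c, ((⟨x1, by omega⟩, ⟨x2, by omega⟩), p0, p1), by omega, by omega,
          hi0, lo1, c1, r3, r6, by omega, fun e => hne (congrArg Subtype.val e), ?_, ?_⟩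
        · exact ⟨l3.mono r2 r4, fun h => n1 (h.mono r1 r5), by simp only; omega,
            by simp only; omega⟩
        · exact ⟨l6.mono r2 r4, fun h => n2 (h.mono r1 r5), by simp only; omega,
            by simp only; omega⟩
      have hsum := card_filter_add_card_filter_not (s := K) (Qd q a' b')
      have hq := hB (K.filter (Qd q a' b')) (i7.sub (filter_subset _ _)) fun x hx => by
        have := i9 x (mem_filter.1 hx).1
        exact ⟨by omega, (mem_filter.1 hx).2⟩
      refine ⟨by omega, ?_⟩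
      obtain ⟨K', k1, k2, k3⟩ := grow i7 (filter_subset (Qd q a' b') K)
      refine ⟨a', b', K', a1, by omega, b1, a4, b4, hB, k1, by rw [pow_succ]; omega, ?_⟩
      intro y hy
      rcases k3 y hy with h | ⟨x, hx, β, rfl⟩
      · obtain ⟨l1, l2, l3⟩ := i9 y h
        exact ⟨l1, by omega, l3.mono a2'.le b2'.le⟩
      · obtain ⟨l1, l2, l3⟩ := i9 x (mem_filter.1 hx).1
        refine ⟨by simp; omega, by simp; omega, x, β, rfl, (mem_filter.1 hx).2⟩
    have all : ∀ s, s ≤ 8 → ∃ a b K, Inv s a b K := by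
      intro s
      induction s with
      | zero =>
        intro _
        refine ⟨t, t + 1, {q t ++ [false], q t ++ [true]}, tlo, by omega, thi, ht1, ht2,
          Bd.one n q H t, ?_, ?_, ?_⟩
        · intro x hx y hy e
          refine e.eq_of_length ?_
          simp only [mem_insert, mem_singleton] at hx hy
          rcases hx with rfl | rfl <;> rcases hy with rfl | rfl <;> simp
        · rw [card_pair (by simp)]; simp
        · intro x hx
          simp only [mem_insert, mem_singleton] at hx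
          rcases hx with rfl | rfl
          · exact ⟨by simp, by simp, q t, false, rfl, t, le_rfl, by omega, rfl⟩
          · exact ⟨by simp, by simp, q t, true, rfl, t, le_rfl, by omega, rfl⟩
      | succ s ih =>
        intro hs
        obtain ⟨a, b, K, h⟩ := ih (by omega)
        exact (step s a b K (by omega) h).2
    obtain ⟨a, b, K, h⟩ := all 8 le_rfl
    have := (step 8 a b K le_rfl h).1
    norm_num at this

end Pool.Agent.MP_47ff19_lc.H70
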