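import Mathlib

/-!
The counting part of the lower bound.
-/

set_option autoImplicit false
set_option linter.unusedSectionVars false

namespace Pool.Agent.MP_47ff19_lc.H70

open Finset

theorem few_small {α γ : Type} [DecidableEq γ] (G : Finset α) (κ : α → γ) (M : ℝ) (hM : 0 ≤ M) :
    (#(G.filter fun w => (#(G.filter fun w' => κ w' = κ w) : ℝ) < M) : ℝ) ≤ M * #(G.image κ) := by
  classical
  set B := G.filter fun w => (#(G.filter fun w' => κ w' = κ w) : ℝ) < M with hB
  have h1 : #B = ∑ g ∈ G.image κ, #(B.filter fun w => κ w = g) :=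
    card_eq_sum_card_fiberwise fun w hw => mem_image_of_mem κ (mem_filter.1 hw).1
  rw [h1]
  push_cast
  have h2 : ∀ g ∈ G.image κ, (#(B.filter fun w => κ w = g) : ℝ) ≤ M := by
    intro g _
    rcases (B.filter fun w => κ w = g).eq_empty_or_nonempty with h | ⟨w, hw⟩
    · rw [h]; simpa using hM
    · obtain ⟨hwB, hwg⟩ := mem_filter.1 hw
      refine le_trans ?_ (mem_filter.1 hwB).2.le
      refine Nat.cast_le.2 (card_le_card fun w' hw' => ?_)
      obtain ⟨h3, h4⟩ := mem_filter.1 hw'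
      exact mem_filter.2 ⟨(mem_filter.1 h3).1, h4.trans hwg.symm⟩
  refine (sum_le_card_nsmul _ _ _ h2).trans ?_
  rw [nsmul_eq_mul, mul_comm]

variable {ι Q : Type} [Fintype ι] [DecidableEq ι] [Fintype Q] [DecidableEq Q] {k : ℕ}

/-- The values outside `A`. -/
def off (A : Finset ι) (w : ι → Fin k) : {i // i ∉ A} → Fin k := fun i => w i.1

theorem off_eq {A : Finset ι} {w w' : ι → Fin k} : off A w = off A w' ↔ ∀ i, i ∉ A → w i = w' i :=
  ⟨fun h i hi => congrFun h ⟨i, hi⟩, fun h => funext fun i => h i.1 i.2⟩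

theorem card_off (A : Finset ι) :
    Fintype.card ({i // i ∉ A} → Fin k) * k ^ #A = k ^ Fintype.card ι := by
  rw [Fintype.card_fun, Fintype.card_fin, ← pow_add, Fintype.card_subtype_compl, Fintype.card_coe,
    Nat.sub_add_cancel (card_le_univ A)]

theorem fiber_le (F : Finset (ι → Fin k)) (A : Finset ι) (φ : {i // i ∉ A} → Fin k) :
    #(F.filter fun w => off A w = φ) ≤ k ^ #A := by
  have : #(F.filter fun w => off A w = φ) ≤ #(univ : Finset (A → Fin k)) := by
    refine card_le_card_of_injOn (fun w a => w a.1) (fun _ _ => mem_univ _) ?_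
    intro w hw w' hw' h
    have h1 := off_eq.1 ((mem_filter.1 (mem_coe.1 hw)).2.trans (mem_filter.1 (mem_coe.1 hw')).2.symm)
    funext i
    by_cases hi : i ∈ A
    · exact congrFun h ⟨i, hi⟩
    · exact h1 i hi
  simpa using this

/-- The size of the class of `w`. -/
def cl (F : Finset (ι → Fin k)) (A : Finset ι) (s : (ι → Fin k) → Q) (w : ι → Fin k) : ℕ :=
  #(F.filter fun w' => off A w' = off A w ∧ s w' = s w)

theorem heavy_le (F G : Finset (ι → Fin k)) (A : Finset ι) (s : (ι → Fin k) → Q) (M : ℝ)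
    (hG : ∀ w ∈ G, M ≤ cl F A s w) (φ : {i // i ∉ A} → Fin k) :
    (#((G.filter fun w => off A w = φ).image s) : ℝ) * M ≤ (k : ℝ) ^ #A := by
  set T := (G.filter fun w => off A w = φ).image s with hT
  have h1 : #((F.filter fun w => off A w = φ).filter fun w => s w ∈ T) =
      ∑ g ∈ T, #(((F.filter fun w => off A w = φ).filter fun w => s w ∈ T).filter fun w => s w = g) :=
    card_eq_sum_card_fiberwise fun w hw => (mem_filter.1 hw).2
  have h2 : ∀ g ∈ T, M ≤
      (#(((F.filter fun w => off A w = φ).filter fun w => s w ∈ T).filter fun w => s w = g) : ℝ) := by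
    intro g hg
    obtain ⟨w, hw, rfl⟩ := mem_image.1 hg
    obtain ⟨h3, h4⟩ := mem_filter.1 hw
    refine (hG w h3).trans (Nat.cast_le.2 (card_le_card fun w' hw' => ?_))
    obtain ⟨h5, h6, h7⟩ := mem_filter.1 hw'
    exact mem_filter.2 ⟨mem_filter.2 ⟨mem_filter.2 ⟨h5, h6.trans h4⟩, h7 ▸ hg⟩, h7⟩
  have h3 := card_nsmul_le_sum T _ M h2
  rw [nsmul_eq_mul, ← Nat.cast_sum, ← h1] at h3
  refine h3.trans ?_
  exact_mod_cast (card_filter_le _ _).trans (fiber_le F A φ)

/-- Nested pairs of states that determine pairs of values. -/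
def Str (F : Finset (ι → Fin k)) : ℕ → Finset ι → ((ι → Fin k) → Q) → Prop
  | 0, A, s => ∃ y1 y2, y1 ≠ y2 ∧ y1 ∉ A ∧ y2 ∉ A ∧
      ∀ w ∈ F, ∀ w' ∈ F, s w = s w' → w y1 = w' y1 ∧ w y2 = w' y2
  | m + 1, A, s => ∃ x1 x2 s', x1 ≠ x2 ∧ x1 ∉ A ∧ x2 ∉ A ∧
      Str F m (insert x1 (insert x2 A)) s ∧ Str F m (insert x1 (insert x2 A)) s' ∧
      ∀ w ∈ F, ∀ w' ∈ F, off (insert x1 (insert x2 A)) w = off (insert x1 (insert x2 A)) w' →
        s w = s w' → s' w = s' w' → w x1 = w' x1 ∧ w x2 = w' x2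

theorem off_of_insert {A : Finset ι} {x1 x2 : ι} {w w' : ι → Fin k}
    (h : off (insert x1 (insert x2 A)) w = off (insert x1 (insert x2 A)) w') (h1 : w x1 = w' x1)
    (h2 : w x2 = w' x2) : off A w = off A w' := by
  rw [off_eq] at h ⊢
  intro i hi
  by_cases e1 : i = x1
  · rw [e1, h1]
  by_cases e2 : i = x2
  · rw [e2, h2]
  exact h i (by simp [e1, e2, hi])

theorem card_ins {A : Finset ι} {x1 x2 : ι} (h : x1 ≠ x2) (h1 : x1 ∉ A) (h2 : x2 ∉ A) :
    #(insert x1 (insert x2 A)) = #A + 2 := by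
  rw [card_insert_of_notMem (by simp [h, h1]), card_insert_of_notMem h2]

theorem str_count (F : Finset (ι → Fin k)) (hk : 0 < k) (S δ : ℝ) (hδ : 0 < δ) (hS : 0 < S)
    (hQ : (Fintype.card Q : ℝ) ≤ S) : ∀ (m : ℕ) (A : Finset ι) (s : (ι → Fin k) → Q), Str F m A s →
    (#(F.filter fun w => (cl F A s w : ℝ) <
        (k : ℝ) ^ #A * (δ ^ 2 * (k : ℝ) ^ 4 / S) ^ 2 ^ m / (δ * (k : ℝ) ^ 2)) : ℝ) ≤
      (2 ^ (m + 1) - 1) * δ * (k : ℝ) ^ Fintype.card ι
  | 0, A, s => by
    rintro ⟨y1, y2, hy, hy1, hy2, h⟩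
    have hk' : (0 : ℝ) < k := by exact_mod_cast hk
    set A' := insert y1 (insert y2 A) with hA'
    set M : ℝ := (k : ℝ) ^ #A * (δ ^ 2 * (k : ℝ) ^ 4 / S) ^ 2 ^ 0 / (δ * (k : ℝ) ^ 2) with hM
    have h1 := few_small F (fun w => (off A' w, s w)) M (by positivity)
    have h2 : (F.filter fun w => (cl F A s w : ℝ) < M) ⊆
        F.filter fun w => (#(F.filter fun w' => (off A' w', s w') = (off A' w, s w)) : ℝ) < M := by
      intro w hw
      obtain ⟨h3, h4⟩ := mem_filter.1 hw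
      refine mem_filter.2 ⟨h3, lt_of_le_of_lt (Nat.cast_le.2 (card_le_card fun w' hw' => ?_)) h4⟩
      obtain ⟨h5, h6⟩ := mem_filter.1 hw'
      obtain ⟨h7, h8⟩ := Prod.ext_iff.1 h6
      obtain ⟨h9, h10⟩ := h w' h5 w h3 h8
      exact mem_filter.2 ⟨h5, off_of_insert h7 h9 h10, h8⟩
    have h3 : (#(F.image fun w => (off A' w, s w)) : ℝ) ≤
        Fintype.card ({i // i ∉ A'} → Fin k) * S := by
      refine le_trans (Nat.cast_le.2 (card_le_univ _)) ?_
      rw [Fintype.card_prod]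
      push_cast
      gcongr
    have h4 : (Fintype.card ({i // i ∉ A'} → Fin k) : ℝ) * (k : ℝ) ^ (#A + 2) =
        (k : ℝ) ^ Fintype.card ι := by
      rw [← card_ins hy hy1 hy2]
      exact_mod_cast card_off (k := k) A'
    refine (Nat.cast_le.2 (card_le_card h2)).trans (h1.trans ?_)
    refine (mul_le_mul_of_nonneg_left h3 (by positivity)).trans (le_of_eq ?_)
    rw [← h4, hM, pow_zero, pow_one]
    field_simp
    ring
  | m + 1, A, s => by
    rintro ⟨x1, x2, s', hx, hx1, hx2, h0, h0', h⟩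
    have hk' : (0 : ℝ) < k := by exact_mod_cast hk
    have i0 := str_count F hk S δ hδ hS hQ m _ s h0
    have i1 := str_count F hk S δ hδ hS hQ m _ s' h0'
    set A' := insert x1 (insert x2 A) with hA'
    have hc : #A' = #A + 2 := card_ins hx hx1 hx2
    set τ : ℝ := δ ^ 2 * (k : ℝ) ^ 4 / S with hτ
    have hτ0 : 0 < τ := by positivity
    set M0 : ℝ := (k : ℝ) ^ #A' * τ ^ 2 ^ m / (δ * (k : ℝ) ^ 2) with hM0
    have hM00 : 0 < M0 := by positivity
    set M : ℝ := (k : ℝ) ^ #A * τ ^ 2 ^ (m + 1) / (δ * (k : ℝ) ^ 2) with hM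
    set G := F.filter fun w => M0 ≤ cl F A' s w ∧ M0 ≤ cl F A' s' w with hG
    have h1 := few_small G (fun w => (off A' w, s w, s' w)) M (by positivity)
    have h2 : (F.filter fun w => (cl F A s w : ℝ) < M) ⊆
        ((F.filter fun w => (cl F A' s w : ℝ) < M0) ∪ (F.filter fun w => (cl F A' s' w : ℝ) < M0)) ∪
        G.filter fun w =>
          (#(G.filter fun w' => (off A' w', s w', s' w') = (off A' w, s w, s' w)) : ℝ) < M := by
      intro w hw
      obtain ⟨h3, h4⟩ := mem_filter.1 hw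
      by_cases c1 : (cl F A' s w : ℝ) < M0
      · exact mem_union_left _ (mem_union_left _ (mem_filter.2 ⟨h3, c1⟩))
      by_cases c2 : (cl F A' s' w : ℝ) < M0
      · exact mem_union_left _ (mem_union_right _ (mem_filter.2 ⟨h3, c2⟩))
      refine mem_union_right _ (mem_filter.2 ⟨mem_filter.2 ⟨h3, not_lt.1 c1, not_lt.1 c2⟩,
        lt_of_le_of_lt (Nat.cast_le.2 (card_le_card fun w' hw' => ?_)) h4⟩)
      obtain ⟨h5, h6⟩ := mem_filter.1 hw'
      obtain ⟨h7, h8⟩ := Prod.ext_iff.1 h6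
      obtain ⟨h8, h8'⟩ := Prod.ext_iff.1 h8
      obtain ⟨h9, h10⟩ := h w' (mem_filter.1 h5).1 w h3 h7 h8 h8'
      exact mem_filter.2 ⟨(mem_filter.1 h5).1, off_of_insert h7 h9 h10, h8⟩
    have h3 : (G.image fun w => (off A' w, s w, s' w)) ⊆ univ.biUnion fun φ =>
        {φ} ×ˢ (((G.filter fun w => off A' w = φ).image s) ×ˢ
          ((G.filter fun w => off A' w = φ).image s')) := by
      intro z hz
      obtain ⟨w, hw, rfl⟩ := mem_image.1 hz
      refine mem_biUnion.2 ⟨off A' w, mem_univ _, mem_product.2 ⟨mem_singleton_self _,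
        mem_product.2 ⟨?_, ?_⟩⟩⟩
      · exact mem_image_of_mem s (mem_filter.2 ⟨hw, rfl⟩)
      · exact mem_image_of_mem s' (mem_filter.2 ⟨hw, rfl⟩)
    have h4 : ∀ φ ∈ (univ : Finset ({i // i ∉ A'} → Fin k)),
        (#({φ} ×ˢ (((G.filter fun w => off A' w = φ).image s) ×ˢ
          ((G.filter fun w => off A' w = φ).image s'))) : ℝ) ≤ ((k : ℝ) ^ #A' / M0) ^ 2 := by
      intro φ _
      have a1 := heavy_le F G A' s M0 (fun w hw => (mem_filter.1 hw).2.1) φ
      have a2 := heavy_le F G A' s' M0 (fun w hw => (mem_filter.1 hw).2.2) φ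
      rw [← le_div_iff₀ hM00] at a1 a2
      rw [card_product, card_product, card_singleton, one_mul, sq]
      push_cast
      exact mul_le_mul a1 a2 (by positivity) (by positivity)
    have h5 : (#(G.image fun w => (off A' w, s w, s' w)) : ℝ) ≤
        Fintype.card ({i // i ∉ A'} → Fin k) * ((k : ℝ) ^ #A' / M0) ^ 2 := by
      refine le_trans (Nat.cast_le.2 ((card_le_card h3).trans card_biUnion_le)) ?_
      push_cast
      refine (sum_le_card_nsmul _ _ _ h4).trans ?_
      rw [nsmul_eq_mul, card_univ]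
    have h6 : (Fintype.card ({i // i ∉ A'} → Fin k) : ℝ) * (k : ℝ) ^ (#A + 2) =
        (k : ℝ) ^ Fintype.card ι := by
      rw [← hc]
      exact_mod_cast card_off (k := k) A'
    have h7 : M * (Fintype.card ({i // i ∉ A'} → Fin k) * ((k : ℝ) ^ #A' / M0) ^ 2) =
        δ * (k : ℝ) ^ Fintype.card ι := by
      rw [← h6, hM, hM0, pow_succ 2 m, pow_mul τ]
      field_simp
      ring
    have h8 := h1.trans ((mul_le_mul_of_nonneg_left h5 (by positivity)).trans h7.le)
    have h9 := (Nat.cast_le (α := ℝ)).2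
      ((card_le_card h2).trans ((card_union_le _ _).trans (Nat.add_le_add_right (card_union_le _ _) _)))
    push_cast at h9
    have h10 : ((2 : ℝ) ^ (m + 1 + 1) - 1) * δ * (k : ℝ) ^ Fintype.card ι =
        (2 ^ (m + 1) - 1) * δ * (k : ℝ) ^ Fintype.card ι +
        (2 ^ (m + 1) - 1) * δ * (k : ℝ) ^ Fintype.card ι + δ * (k : ℝ) ^ Fintype.card ι := by ring
    rw [h10]
    linarith

/-- The conclusion of the counting argument. -/
theorem str_bound (F : Finset (ι → Fin k)) (hk : 0 < k) (S δ : ℝ) (hδ : 0 < δ) (hS : 0 < S)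
    (hQ : (Fintype.card Q : ℝ) ≤ S) (m : ℕ) (s : (ι → Fin k) → Q) (h : Str F m ∅ s)
    (hF : 2 ^ (m + 1) * δ * (k : ℝ) ^ Fintype.card ι ≤ #F) :
    (δ ^ 2 * (k : ℝ) ^ 4 / S) ^ 2 ^ m ≤ δ * (k : ℝ) ^ 2 := by
  have hk' : (0 : ℝ) < k := by exact_mod_cast hk
  by_contra hc
  rw [not_le] at hc
  have h1 := str_count F hk S δ hδ hS hQ m ∅ s h
  rw [filter_true_of_mem] at h1
  · have : 0 < δ * (k : ℝ) ^ Fintype.card ι := by positivity
    nlinarith
  · intro w _
    have h2 : cl F ∅ s w ≤ 1 := by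
      refine le_trans (card_le_card (t := {w}) fun w' hw' => ?_) (by simp)
      have := off_eq.1 (mem_filter.1 hw').2.1
      exact mem_singleton.2 (funext fun i => this i (notMem_empty i))
    have h3 : (cl F ∅ s w : ℝ) ≤ 1 := by exact_mod_cast h2
    refine lt_of_le_of_lt h3 ?_
    rw [card_empty, pow_zero, one_mul, one_lt_div (by positivity)]
    exact hc

theorem big_bound (F : Finset (ι → Fin k)) (X : Finset ι) (s s' : (ι → Fin k) → Q)
    (h : ∀ w ∈ F, ∀ w' ∈ F, off X w = off X w' → s w = s w' → s' w = s' w' → ∀ x ∈ X, w x = w' x) :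
    #F * k ^ #X ≤ k ^ Fintype.card ι * Fintype.card Q ^ 2 := by
  have h1 : #F ≤ #(univ : Finset (({i // i ∉ X} → Fin k) × Q × Q)) := by
    refine card_le_card_of_injOn (fun w => (off X w, s w, s' w)) (fun _ _ => mem_univ _) ?_
    intro w hw w' hw' e
    obtain ⟨e1, e2⟩ := Prod.ext_iff.1 e
    obtain ⟨e2, e3⟩ := Prod.ext_iff.1 e2
    funext i
    by_cases hi : i ∈ X
    · exact h w hw w' hw' e1 e2 e3 i hi
    · exact off_eq.1 e1 i hi
  rw [card_univ, Fintype.card_prod, Fintype.card_prod] at h1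
  rw [← card_off (k := k) X]
  calc #F * k ^ #X ≤ _ := Nat.mul_le_mul_right _ h1
    _ = _ := by ring

end Pool.Agent.MP_47ff19_lc.H70
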