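import Pool.Agent.MP_47ff19_lc.Defs
import Pool.Agent.MP_47ff19_lc.H70.Count
import Pool.Agent.MP_47ff19_lc.H70.Comb

/-!
The lower bound for nondeterministic thrifty branching programs.
-/

set_option autoImplicit false

namespace Pool.Agent.MP_47ff19_lc.H70

open Finset

/-- The node of a variable. -/
def addr {k : ℕ} : {n : ℕ} → Var k n → List Bool
  | _, .leaf => []
  | _, .node _ _ => []
  | _, .left v => false :: addr v
  | _, .right v => true :: addr v

/-- The arguments of a table entry. -/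
def arg {k : ℕ} : {n : ℕ} → Var k n → Bool → Option (Fin k)
  | _, .leaf, _ => none
  | _, .node a b, β => some (if β then b else a)
  | _, .left v, β => arg v β
  | _, .right v, β => arg v β

theorem addr_length {k n : ℕ} (v : Var k n) : (addr v).length ≤ n := by
  induction v with
  | leaf => simp [addr]
  | node a b => simp [addr]
  | left v ih => simpa [addr] using ih
  | right v ih => simpa [addr] using ih

theorem value_const {k : ℕ} (n : ℕ) (W : List Bool → Fin k) :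
    value n (fun v => W (addr v)) = W [] := by
  cases n <;> rfl

theorem thrifty_arg {k n : ℕ} {I : Var k n → Fin k} {v : Var k n} (h : Thrifty n I v) :
    ∀ W : List Bool → Fin k, I = (fun v => W (addr v)) → (addr v).length < n →
      ∀ β, arg v β = some (W (addr v ++ [β])) := by
  induction h with
  | leaf I => intro W _ h; simp at h
  | @node n I =>
    rintro W rfl _ β
    have h1 := value_const n fun l => W (false :: l)
    have h2 := value_const n fun l => W (true :: l)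
    cases β
    · exact congrArg some h1
    · exact congrArg some h2
  | left I v _ ih =>
    rintro W rfl h β
    exact ih (fun l => W (false :: l)) rfl (by simpa [addr] using h) β
  | right I v _ ih =>
    rintro W rfl h β
    exact ih (fun l => W (true :: l)) rfl (by simpa [addr] using h) β

/-- The input all of whose tables are constant. -/
def inp {k n : ℕ} (w : Nd n → Fin k) : Var k n → Fin k := fun v => w ⟨addr v, addr_length v⟩

/-- The root. -/
def root (n : ℕ) : Nd n := ⟨[], Nat.zero_le _⟩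

/-- Extension to all lists. -/
def ext {k n : ℕ} (w : Nd n → Fin k) (l : List Bool) : Fin k :=
  if h : l.length ≤ n then w ⟨l, h⟩ else w (root n)

theorem inp_eq {k n : ℕ} (w : Nd n → Fin k) : inp w = fun v => ext w (addr v) := by
  funext v
  simp [inp, ext, addr_length v]

theorem value_inp {k n : ℕ} (w : Nd n → Fin k) : value n (inp w) = w (root n) := by
  rw [inp_eq, value_const]
  simp [root, ext]

theorem thrifty_inp {k n : ℕ} {w : Nd n → Fin k} {v : Var k n} (h : Thrifty n (inp w) v)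
    {x : Nd n} {β : Bool} (hx : x.1 = addr v ++ [β]) : arg v β = some (w x) := by
  have h1 := x.2
  rw [thrifty_arg h _ (inp_eq w) (by rw [hx] at h1; simpa using h1) β]
  simp only [← hx, h1, dite_true, ext]

theorem exists_path {α : Type} {r : α → α → Prop} {s t : α} (h : Relation.ReflTransGen r s t) :
    ∃ (L : ℕ) (p : ℕ → α), p 0 = s ∧ p L = t ∧ ∀ i, i < L → r (p i) (p (i + 1)) := by
  induction h with
  | refl => exact ⟨0, fun _ => s, rfl, rfl, fun i hi => absurd hi (Nat.not_lt_zero i)⟩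
  | @tail b c _ h2 ih =>
    obtain ⟨L, p, h0, hL, hs⟩ := ih
    refine ⟨L + 1, fun i => if i ≤ L then p i else c, by simpa using h0, by simp, fun i hi => ?_⟩
    by_cases h : i < L
    · simpa [h.le, Nat.succ_le_of_lt h] using hs i h
    · obtain rfl : i = L := by omega
      simpa [hL] using h2

theorem reach_of_path {α : Type} {r : α → α → Prop} {p : ℕ → α} {a b : ℕ} (hab : a ≤ b)
    (h : ∀ i, a ≤ i → i < b → r (p i) (p (i + 1))) : Relation.ReflTransGen r (p a) (p b) := by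
  induction b, hab using Nat.le_induction with
  | base => exact Relation.ReflTransGen.refl
  | succ b hb ih =>
    exact (ih fun i h1 h2 => h i h1 (by omega)).tail (h b hb (Nat.lt_succ_self b))

variable {k n : ℕ} {R : Type}

/-- A complete computation on every constant input. -/
structure Paths (B : NBP (Var k n) R k) where
  L : (Nd n → Fin k) → ℕ
  p : (Nd n → Fin k) → ℕ → Fin B.inner ⊕ R
  r : (Nd n → Fin k) → R
  h0 : ∀ w, p w 0 = B.start
  hL : ∀ w, p w (L w) = Sum.inr (r w)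
  hs : ∀ w i, i < L w → ∃ s, p w i = Sum.inl s ∧ B.edge s (inp w (B.label s)) (p w (i + 1))

variable {B : NBP (Var k n) R k}

/-- The queried nodes. -/
def Paths.q (P : Paths B) (w : Nd n → Fin k) (i : ℕ) : List Bool :=
  (P.p w i).elim (fun s => addr (B.label s)) fun _ => []

/-- The states. -/
def Paths.key (P : Paths B) (w : Nd n → Fin k) (i : ℕ) : Option (Fin B.inner) := (P.p w i).getLeft?

theorem Paths.q_le (P : Paths B) (w : Nd n → Fin k) (i : ℕ) : (P.q w i).length ≤ n := by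
  unfold Paths.q
  cases P.p w i with
  | inl s => exact addr_length _
  | inr r => simp

theorem Paths.reach (P : Paths B) (w w' : Nd n → Fin k) {a b : ℕ} (hab : a ≤ b) (hb : b ≤ P.L w')
    (h : ∀ i, a ≤ i → i < b → w ⟨P.q w' i, P.q_le w' i⟩ = w' ⟨P.q w' i, P.q_le w' i⟩) :
    B.Reach (inp w) (P.p w' a) (P.p w' b) := by
  refine reach_of_path hab fun i h1 h2 => ?_
  obtain ⟨s, e1, e2⟩ := P.hs w' i (by omega)
  refine ⟨s, e1, ?_⟩
  have h3 := h i h1 h2
  have h4 : (⟨P.q w' i, P.q_le w' i⟩ : Nd n) = ⟨addr (B.label s), addr_length _⟩ :=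
    Subtype.ext (by simp [Paths.q, e1])
  rw [h4] at h3
  rw [show inp w (B.label s) = inp w' (B.label s) from h3]
  exact e2

theorem Paths.hyb0 (P : Paths B) (ht : B.IsThrifty) (w w' : Nd n → Fin k) {a b : ℕ}
    (hb : b ≤ P.L w')
    (h : ∀ i, a ≤ i → i < b → w ⟨P.q w' i, P.q_le w' i⟩ = w' ⟨P.q w' i, P.q_le w' i⟩)
    (h1 : B.Reach (inp w) B.start (P.p w' a)) {r : R} (h2 : B.Reach (inp w) (P.p w' b) (Sum.inr r))
    {i : ℕ} (hi1 : a ≤ i) (hi2 : i < b) {s : Fin B.inner} (hs : P.p w' i = Sum.inl s) {x : Nd n}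
    {β : Bool} (hx : x.1 = P.q w' i ++ [β]) : arg (B.label s) β = some (w x) := by
  have h3 := P.reach w w' hi1 (by omega) fun j j1 j2 => h j j1 (by omega)
  have h4 := P.reach w w' hi2.le hb fun j j1 j2 => h j (by omega) j2
  rw [hs] at h3 h4
  exact thrifty_inp (ht (inp w) s r (Relation.ReflTransGen.trans h1 h3)
    (Relation.ReflTransGen.trans h4 h2)) (by simpa [Paths.q, hs] using hx)

theorem Paths.own (P : Paths B) (ht : B.IsThrifty) (w : Nd n → Fin k) {i : ℕ} (hi : i < P.L w)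
    {s : Fin B.inner} (hs : P.p w i = Sum.inl s) {x : Nd n} {β : Bool}
    (hx : x.1 = P.q w i ++ [β]) : arg (B.label s) β = some (w x) :=
  P.hyb0 ht w w (a := 0) le_rfl (fun _ _ _ => rfl) (by rw [P.h0]; exact Relation.ReflTransGen.refl)
    (r := P.r w) (by rw [P.hL]; exact Relation.ReflTransGen.refl) (Nat.zero_le i) hi hs hx

theorem Paths.key_eq (P : Paths B) {w w' : Nd n → Fin k} {a a' : ℕ} {s : Fin B.inner}
    (hs : P.p w a = Sum.inl s) (h : P.key w a = P.key w' a') : P.p w' a' = Sum.inl s := by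
  unfold Paths.key at h
  rw [hs] at h
  exact Sum.getLeft?_eq_some_iff.1 h.symm

theorem Paths.hyb (P : Paths B) (ht : B.IsThrifty) (w w' : Nd n → Fin k) {a b a' b' : ℕ}
    (ha : a < P.L w) (hb : b ≤ P.L w) (hb' : b' ≤ P.L w') (e1 : P.key w a = P.key w' a')
    (e2 : P.key w b = P.key w' b')
    (h : ∀ x : Nd n, Qd (P.q w') a' b' x.1 → w x = w' x) {x : Nd n} (hx : Par (P.q w') a' b' x.1) :
    w x = w' x := by
  obtain ⟨u, β, hx, i, i1, i2, rfl⟩ := hx
  obtain ⟨s, hs, -⟩ := P.hs w' i (by omega)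
  obtain ⟨s0, hs0, -⟩ := P.hs w a ha
  have h1 : B.Reach (inp w) B.start (P.p w' a') := by
    rw [P.key_eq hs0 e1, ← hs0, ← P.h0 w]
    exact P.reach w w (Nat.zero_le _) ha.le fun _ _ _ => rfl
  have h2 : ∃ r, B.Reach (inp w) (P.p w' b') (Sum.inr r) := by
    cases hp : P.p w' b' with
    | inl s1 =>
      refine ⟨P.r w, ?_⟩
      rw [← P.key_eq hp e2.symm, ← P.hL w]
      exact P.reach w w hb le_rfl fun _ _ _ => rfl
    | inr r => exact ⟨r, Relation.ReflTransGen.refl⟩
  obtain ⟨r, h2⟩ := h2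
  have h3 := P.hyb0 ht w w' hb' (fun j j1 j2 => h _ ⟨j, j1, j2, rfl⟩) h1 h2 i1 i2 hs hx
  have h4 := P.own ht w' (by omega) hs hx
  exact Option.some_injective _ (h3.symm.trans h4)

theorem Paths.full (P : Paths B) (ht : B.IsThrifty) (hk : 2 ≤ k) {π : Fin k → R}
    (hπ : ∃ a b, π a ≠ π b) (hc : B.Computes fun I => π (value n I)) (w : Nd n → Fin k)
    (l : List Bool) : l.length ≤ n → Qd (P.q w) 0 (P.L w) l := by
  have upd : ∀ (x : Nd n) (y : Fin k), ¬ Qd (P.q w) 0 (P.L w) x.1 → ∀ i, 0 ≤ i → i < P.L w →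
      Function.update w x y ⟨P.q w i, P.q_le w i⟩ = w ⟨P.q w i, P.q_le w i⟩ := by
    intro x y hx i i1 i2
    refine Function.update_of_ne (fun e => hx ⟨i, i1, i2, congrArg Subtype.val e⟩) _ _
  induction l using List.reverseRecOn with
  | nil =>
    intro _
    by_contra hn
    obtain ⟨y, hy⟩ : ∃ y, π y ≠ π (w (root n)) := by
      obtain ⟨a, b, hab⟩ := hπ
      by_cases h : π a = π (w (root n))
      · exact ⟨b, fun e => hab (h.trans e.symm)⟩
      · exact ⟨a, h⟩
    have h1 := P.reach (Function.update w (root n) y) w (Nat.zero_le _) le_rfl (upd (root n) y hn)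
    have h2 := P.reach w w (Nat.zero_le _) le_rfl fun _ _ _ => rfl
    rw [P.h0, P.hL] at h1 h2
    have h3 := (hc _ _).1 h1
    have h4 := (hc _ _).1 h2
    simp only [value_inp, Function.update_self] at h3 h4
    exact hy (h3.symm.trans h4)
  | append_singleton l β ih =>
    intro hl
    obtain ⟨i, i1, i2, i3⟩ := ih (by simp at hl; omega)
    by_contra hn
    have : Nontrivial (Fin k) := Fin.nontrivial_iff_two_le.2 hk
    obtain ⟨y, hy⟩ := exists_ne (w ⟨l ++ [β], hl⟩)
    obtain ⟨s, hs, -⟩ := P.hs w i i2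
    have h3 := P.hyb0 ht (Function.update w ⟨l ++ [β], hl⟩ y) w le_rfl (upd ⟨l ++ [β], hl⟩ y hn)
      (by rw [P.h0]; exact Relation.ReflTransGen.refl)
      (r := P.r w) (by rw [P.hL]; exact Relation.ReflTransGen.refl) i1 i2 hs
      (x := ⟨l ++ [β], hl⟩) (β := β) (by rw [i3])
    have h4 := P.own ht w i2 hs (x := ⟨l ++ [β], hl⟩) (β := β) (by rw [i3])
    rw [Function.update_self] at h3
    exact hy (Option.some_injective _ (h3.symm.trans h4))

noncomputable instance : Fintype (Nd n) := (List.finite_length_le Bool n).fintype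

theorem Paths.str (P : Paths B) (ht : B.IsThrifty) (F : Finset (Nd n → Fin k)) (hF : F.Nonempty) :
    ∀ (m : ℕ) (pat : Pat n m) (A : Finset (Nd n)) (lo hi c : (Nd n → Fin k) → ℕ),
    (∀ w ∈ F, St n (P.q w) m pat (lo w) (hi w) (c w) ∧ hi w ≤ P.L w ∧
      ∀ x ∈ A, ¬ Qd (P.q w) (lo w) (hi w) x.1) → (∀ x ∈ A, x.1.length + Hh m < n) →
    Str F m A fun w => P.key w (c w)
  | 0, pat, A, lo, hi, c, h, hA => by
    obtain ⟨w0, hw0⟩ := hF
    obtain ⟨⟨-, -, a1, a2, a3⟩, -⟩ := h w0 hw0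
    refine ⟨pat.1, pat.2, fun e => ?_, fun e => ?_, fun e => ?_, fun w hw w' hw' e => ?_⟩
    · rw [e, a2] at a1
      simp at a1
    · have := hA _ e
      rw [a1] at this
      simp [Hh] at this
      omega
    · have := hA _ e
      rw [a2] at this
      simp [Hh] at this
      omega
    · obtain ⟨⟨-, b0, b1, b2, -⟩, b3, -⟩ := h w hw
      obtain ⟨⟨-, c0, c1, c2, -⟩, c3, -⟩ := h w' hw'
      obtain ⟨s, hs, -⟩ := P.hs w (c w) (by omega)
      have hs' := P.key_eq hs e
      exact ⟨Option.some_injective _ ((P.own ht w (by omega) hs b1).symm.trans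
          (P.own ht w' (by omega) hs' c1)),
        Option.some_injective _ ((P.own ht w (by omega) hs b2).symm.trans
          (P.own ht w' (by omega) hs' c2))⟩
  | m + 1, pat, A, lo, hi, c, h, hA => by
    have h1 : ∀ w ∈ F, ∃ a b c1, St n (P.q w) m pat.2.1 (lo w) a (c w) ∧
        St n (P.q w) m pat.2.2 b (hi w) c1 ∧ a ≤ b ∧ pat.1.1 ≠ pat.1.2 ∧
        Dem n (P.q w) m (lo w) a b (hi w) pat.1.1.1 ∧ Dem n (P.q w) m (lo w) a b (hi w) pat.1.2.1 :=
      fun w hw => (h w hw).1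
    choose! a b c1 s0 s1 hab hne d1 d2 using h1
    obtain ⟨w0, hw0⟩ := hF
    have hA' : ∀ x ∈ insert pat.1.1 (insert pat.1.2 A), x.1.length + Hh m < n := by
      intro x hx
      simp only [mem_insert] at hx
      rcases hx with rfl | rfl | hx
      · exact (d1 w0 hw0).2.2.1
      · exact (d2 w0 hw0).2.2.1
      · have := hA x hx
        simp only [Hh] at this ⊢
        omega
    have hQ : ∀ w ∈ F, ∀ x ∈ insert pat.1.1 (insert pat.1.2 A), ¬ Qd (P.q w) (lo w) (hi w) x.1 := by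
      intro w hw x hx
      simp only [mem_insert] at hx
      rcases hx with rfl | rfl | hx
      · exact (d1 w hw).2.1
      · exact (d2 w hw).2.1
      · exact (h w hw).2.2 x hx
    have bd : ∀ w ∈ F, lo w ≤ c w ∧ c w < a w ∧ a w ≤ b w ∧ b w ≤ c1 w ∧ c1 w < hi w ∧
        hi w ≤ P.L w := fun w hw =>
      ⟨(s0 w hw).bounds.1, (s0 w hw).bounds.2, hab w hw, (s1 w hw).bounds.1, (s1 w hw).bounds.2,
        (h w hw).2.1⟩
    refine ⟨pat.1.1, pat.1.2, fun w => P.key w (c1 w), hne w0 hw0, fun e => ?_, fun e => ?_,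
      P.str ht F ⟨w0, hw0⟩ m pat.2.1 _ lo a c (fun w hw => ?_) hA',
      P.str ht F ⟨w0, hw0⟩ m pat.2.2 _ b hi c1 (fun w hw => ?_) hA',
      fun w hw w' hw' e0 e1 e2 => ?_⟩
    · have := hA _ e
      have := (d1 w0 hw0).2.2.2
      omega
    · have := hA _ e
      have := (d2 w0 hw0).2.2.2
      omega
    · have := bd w hw
      exact ⟨s0 w hw, by omega, fun x hx e => hQ w hw x hx (e.mono le_rfl (by omega))⟩
    · have := bd w hw
      exact ⟨s1 w hw, by omega, fun x hx e => hQ w hw x hx (e.mono (by omega) le_rfl)⟩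
    · have b1 := bd w hw
      have b2 := bd w' hw'
      have ag : ∀ x : Nd n, Qd (P.q w') (c w') (c1 w') x.1 → w x = w' x := fun x hx =>
        off_eq.1 e0 x fun e => hQ w' hw' x e (hx.mono (by omega) (by omega))
      exact ⟨P.hyb ht w w' (by omega) (by omega) (by omega) e1 e2 ag
          ((d1 w' hw').1.mono (by omega) (by omega)),
        P.hyb ht w w' (by omega) (by omega) (by omega) e1 e2 ag
          ((d2 w' hw').1.mono (by omega) (by omega))⟩

theorem finite_pat (n : ℕ) : ∀ m, Finite (Pat n m)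
  | 0 => inferInstanceAs (Finite (Nd n × Nd n))
  | m + 1 => by
    have := finite_pat n m
    exact inferInstanceAs (Finite ((Nd n × Nd n) × Pat n m × Pat n m))

theorem lower_core (n m : ℕ) (hn : Hh m ≤ n) : ∃ δ : ℝ, 0 < δ ∧ δ ≤ 1 ∧ ∀ k : ℕ, 2 ≤ k →
    ∀ (R : Type) (π : Fin k → R), (∃ a b, π a ≠ π b) → ∀ B : NBP (Var k n) R k,
    B.Computes (fun I => π (value n I)) → B.IsThrifty →
    (δ ^ 2 * (k : ℝ) ^ 4 / (B.inner + 1)) ^ 2 ^ m ≤ (k : ℝ) ^ 2 := by
  classical
  have := finite_pat n m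
  have : Fintype (Pat n m) := Fintype.ofFinite _
  set C := Fintype.card (Pat n m ⊕ Finset (Nd n)) with hC
  have hC0 : 0 < C := Fintype.card_pos_iff.2 ⟨Sum.inr ∅⟩
  have hC1 : (1 : ℝ) ≤ C := by exact_mod_cast hC0
  have h2m : (1 : ℝ) ≤ 2 ^ (m + 1) := one_le_pow₀ (by norm_num)
  set δ : ℝ := 1 / (2 ^ (m + 1) * C) with hδ
  have hδ0 : 0 < δ := by positivity
  have hδC : 2 ^ (m + 1) * δ * C = 1 := by rw [hδ]; field_simp
  have hδC' : δ * C ≤ 1 := by nlinarith [mul_pos hδ0 (by positivity : (0 : ℝ) < C)]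
  have hδ1 : δ ≤ 1 := by nlinarith
  refine ⟨δ, hδ0, hδ1, fun k hk R π hπ B hc ht => ?_⟩
  have hk' : (1 : ℝ) ≤ k := by exact_mod_cast (by omega : 1 ≤ k)
  have hp : ∀ w : Nd n → Fin k, ∃ (L : ℕ) (p : ℕ → Fin B.inner ⊕ R), p 0 = B.start ∧
      p L = Sum.inr (π (value n (inp w))) ∧
      ∀ i, i < L → ∃ s, p i = Sum.inl s ∧ B.edge s (inp w (B.label s)) (p (i + 1)) :=
    fun w => exists_path ((hc (inp w) _).2 rfl)
  choose L p h0 hL hs using hp
  let P : Paths B := ⟨L, p, fun w => π (value n (inp w)), h0, hL, hs⟩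
  let Real : (Nd n → Fin k) → Pat n m ⊕ Finset (Nd n) → Prop := fun w y =>
    y.elim (fun pat => ∃ lo hi c, hi ≤ P.L w ∧ St n (P.q w) m pat lo hi c)
      fun X => 8 ≤ #X ∧ ∃ lo hi, hi ≤ P.L w ∧
        ∀ x ∈ X, Par (P.q w) lo hi x.1 ∧ ¬ Qd (P.q w) lo hi x.1
  have hR : ∀ w, ∃ y, Real w y := by
    intro w
    by_cases nb : NoBig n (P.q w) (P.L w)
    · obtain ⟨lo, hi, c, pat, -, h1, h2⟩ := comb nb m 0 (P.L w) [] le_rfl (by simpa using hn)
        fun l hl => P.full ht hk hπ hc w _ hl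
      exact ⟨Sum.inl pat, lo, hi, c, h1, h2⟩
    · simp only [NoBig, not_forall, not_le] at nb
      obtain ⟨lo, hi, h1, X, h2, h3⟩ := nb
      exact ⟨Sum.inr X, h3, lo, hi, h1, h2⟩
  choose f hf using hR
  obtain ⟨y, -, hy⟩ := exists_max_image (univ : Finset (Pat n m ⊕ Finset (Nd n)))
    (fun y => #(univ.filter fun w => f w = y)) ⟨Sum.inr ∅, mem_univ _⟩
  set F := univ.filter fun w => f w = y with hFdef
  have hF : k ^ Fintype.card (Nd n) ≤ C * #F := by
    have h1 : #(univ : Finset (Nd n → Fin k)) = ∑ y ∈ univ, #(univ.filter fun w => f w = y) :=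
      card_eq_sum_card_fiberwise fun w _ => mem_univ _
    have h2 := sum_le_card_nsmul _ _ _ hy
    rw [← h1, card_univ, card_univ, Fintype.card_fun, Fintype.card_fin, smul_eq_mul] at h2
    exact h2
  have hF' : (k : ℝ) ^ Fintype.card (Nd n) ≤ C * #F := by exact_mod_cast hF
  have hFr : ∀ w ∈ F, Real w y := fun w hw => (mem_filter.1 hw).2 ▸ hf w
  have hFn : F.Nonempty := by
    rw [← card_pos]
    have : 0 < k ^ Fintype.card (Nd n) := by positivity
    exact Nat.pos_of_mul_pos_left (this.trans_le hF)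
  have hQ : Fintype.card (Option (Fin B.inner)) = B.inner + 1 := by simp
  have hS : (0 : ℝ) < B.inner + 1 := by positivity
  cases y with
  | inl pat =>
    have h1 : ∀ w ∈ F, ∃ lo hi c, hi ≤ P.L w ∧ St n (P.q w) m pat lo hi c := hFr
    choose! lo hi c h2 h3 using h1
    have h4 := P.str ht F hFn m pat ∅ lo hi c
      (fun w hw => ⟨h3 w hw, h2 w hw, fun x hx => absurd hx (notMem_empty x)⟩)
      fun x hx => absurd hx (notMem_empty x)
    have h5 := str_bound F (by omega) (B.inner + 1) δ hδ0 hS (by rw [hQ]; push_cast; exact le_rfl)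
      m _ h4 (by
        calc 2 ^ (m + 1) * δ * (k : ℝ) ^ Fintype.card (Nd n)
            ≤ 2 ^ (m + 1) * δ * (C * #F) := by gcongr
          _ = (2 ^ (m + 1) * δ * C) * #F := by ring
          _ = #F := by rw [hδC, one_mul])
    exact h5.trans (mul_le_of_le_one_left (by positivity) hδ1)
  | inr X =>
    have h1 : ∀ w ∈ F, 8 ≤ #X ∧ ∃ lo hi, hi ≤ P.L w ∧
        ∀ x ∈ X, Par (P.q w) lo hi x.1 ∧ ¬ Qd (P.q w) lo hi x.1 := hFr
    obtain ⟨w0, hw0⟩ := hFn
    have h8 := (h1 w0 hw0).1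
    choose! lo hi h2 h3 using fun w hw => (h1 w hw).2
    have h4 := big_bound F X (fun w => P.key w (lo w)) (fun w => P.key w (hi w)) (by
      intro w hw w' hw' e0 e1 e2 x hx
      obtain ⟨-, -, -, i, i1, i2, -⟩ := (h3 w hw x hx).1
      have := h2 w hw
      exact P.hyb ht w w' (by omega) (h2 w hw) (h2 w' hw') e1 e2
        (fun x hx => off_eq.1 e0 x fun e => (h3 w' hw' x e).2 hx) (h3 w' hw' x hx).1)
    rw [hQ] at h4
    have h5 : k ^ 8 ≤ C * (B.inner + 1) ^ 2 := by
      refine Nat.le_of_mul_le_mul_left ?_ (show 0 < k ^ Fintype.card (Nd n) by positivity)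
      calc k ^ Fintype.card (Nd n) * k ^ 8 ≤ C * #F * k ^ #X :=
            Nat.mul_le_mul hF (Nat.pow_le_pow_right (by omega) h8)
        _ = C * (#F * k ^ #X) := by ring
        _ ≤ C * (k ^ Fintype.card (Nd n) * (B.inner + 1) ^ 2) := Nat.mul_le_mul_left _ h4
        _ = _ := by ring
    have h6 : (k : ℝ) ^ 8 ≤ C * (B.inner + 1) ^ 2 := by exact_mod_cast h5
    have h7 : δ ^ 2 * (k : ℝ) ^ 4 / (B.inner + 1) ≤ 1 := by
      rw [div_le_one hS]
      refine le_of_sq_le_sq ?_ hS.le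
      calc (δ ^ 2 * (k : ℝ) ^ 4) ^ 2 = δ ^ 4 * (k : ℝ) ^ 8 := by ring
        _ ≤ δ ^ 4 * (C * (B.inner + 1) ^ 2) := by gcongr
        _ = δ ^ 3 * (δ * C) * (B.inner + 1) ^ 2 := by ring
        _ ≤ 1 ^ 3 * 1 * (B.inner + 1) ^ 2 := by gcongr
        _ = _ := by ring
    calc (δ ^ 2 * (k : ℝ) ^ 4 / (B.inner + 1)) ^ 2 ^ m ≤ 1 := pow_le_one₀ (by positivity) h7
      _ ≤ (k : ℝ) ^ 2 := one_le_pow₀ hk'

theorem lower (ε : ℝ) (hε : 0 < ε) : ∃ n0 : ℕ, ∀ n, n0 ≤ n → ∃ k0 : ℕ, ∀ k, k0 ≤ k →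
    ∀ (R : Type) (π : Fin k → R), (∃ a b, π a ≠ π b) → ∀ B : NBP (Var k n) R k,
    B.Computes (fun I => π (value n I)) → B.IsThrifty → (k : ℝ) ^ (4 - ε) ≤ B.inner := by
  wlog h4 : ε ≤ 4 generalizing ε
  · obtain ⟨n0, h⟩ := this 4 (by norm_num) le_rfl
    refine ⟨n0, fun n hn => ?_⟩
    obtain ⟨k0, h⟩ := h n hn
    refine ⟨max k0 1, fun k hk R π hπ B hc ht => le_trans ?_
      (h k (le_of_max_le_left hk) R π hπ B hc ht)⟩
    exact Real.rpow_le_rpow_of_exponent_le (by exact_mod_cast le_of_max_le_right hk) (by linarith)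
  obtain ⟨m, hm⟩ := pow_unbounded_of_one_lt (4 / ε) (one_lt_two (α := ℝ))
  refine ⟨Hh m, fun n hn => ?_⟩
  obtain ⟨δ, hδ0, hδ1, h⟩ := lower_core n m hn
  have ht : Filter.Tendsto (fun k : ℕ => (k : ℝ) ^ (ε / 2)) Filter.atTop Filter.atTop :=
    (tendsto_rpow_atTop (by positivity)).comp tendsto_natCast_atTop_atTop
  obtain ⟨k0, hk0⟩ := Filter.eventually_atTop.1 (ht.eventually_ge_atTop (2 / δ ^ 2))
  refine ⟨max k0 2, fun k hk R π hπ B hc hth => ?_⟩
  have h1 := h k (le_of_max_le_right hk) R π hπ B hc hth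
  have h2 := hk0 k (le_of_max_le_left hk)
  have hk1 : (1 : ℝ) ≤ k := by exact_mod_cast le_trans one_le_two (le_of_max_le_right hk)
  have hk' : (0 : ℝ) < k := by linarith
  have hS : (0 : ℝ) < B.inner + 1 := by positivity
  have h3 : δ ^ 2 * (k : ℝ) ^ 4 / (B.inner + 1) ≤ (k : ℝ) ^ (ε / 2) := by
    refine le_of_pow_le_pow_left₀ (n := 2 ^ m) (by positivity) (by positivity) (h1.trans ?_)
    rw [← Real.rpow_natCast, ← Real.rpow_natCast, ← Real.rpow_mul hk'.le]
    refine Real.rpow_le_rpow_of_exponent_le hk1 ?_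
    rw [div_lt_iff₀ hε] at hm
    push_cast
    nlinarith
  rw [div_le_iff₀ hS] at h3
  rw [div_le_iff₀ (by positivity)] at h2
  have h5 : (k : ℝ) ^ 4 = (k : ℝ) ^ (ε / 2) * ((k : ℝ) ^ (ε / 2) * (k : ℝ) ^ (4 - ε)) := by
    rw [← Real.rpow_add hk', ← Real.rpow_add hk', ← Real.rpow_natCast]
    congr 1
    push_cast
    ring
  have h6 : (1 : ℝ) ≤ (k : ℝ) ^ (4 - ε) := Real.one_le_rpow hk1 (by linarith)
  have h7 : (0 : ℝ) < (k : ℝ) ^ (ε / 2) := by positivity
  have h8 : δ ^ 2 * ((k : ℝ) ^ (ε / 2) * (k : ℝ) ^ (4 - ε)) ≤ B.inner + 1 := by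
    refine le_of_mul_le_mul_left ?_ h7
    rw [h5] at h3
    linarith
  nlinarith

end Pool.Agent.MP_47ff19_lc.H70
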