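import Pool.Agent.MP_47ff19_lc.Tree

/-!
The upper bound with two registers.
-/

set_option autoImplicit false

namespace Pool.Agent.MP_47ff19_lc.H70

open Finset

/-- Two vector registers and a stack. -/
abbrev Cf (r : ℕ) : Type := (Bool × Fin r → ℤ) × List ℤ

/-- Query states. -/
abbrev Md {r : ℕ} (U : Finset (Cf r)) (k : ℕ) : Type := U × Fin k × Fin k

variable {r k : ℕ}

/-- A vector placed in one register. -/
def emb (sd : Bool) (d : Fin r → ℤ) : Bool × Fin r → ℤ := fun p => if p.1 = sd then d p.2 else 0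

/-- The squared norm of one register. -/
def nrm (sd : Bool) (a : Bool × Fin r → ℤ) : ℤ := ∑ j, a (sd, j) ^ 2

theorem sum_single (sd : Bool) (d : Fin r → ℤ) :
    ((List.finRange r).map fun j => (Pi.single (sd, j) (d j) : Bool × Fin r → ℤ)).sum = emb sd d := by
  rw [← Fin.sum_univ_def]
  funext ⟨b, i⟩
  simp only [Finset.sum_apply, Pi.single_apply, emb, Prod.mk.injEq]
  by_cases h : b = sd <;> simp [h]

theorem ap_free (c d : Fin r → ℤ) (h1 : ∑ j, (c j + d j) ^ 2 = ∑ j, c j ^ 2)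
    (h2 : ∑ j, (c j + 2 * d j) ^ 2 = ∑ j, c j ^ 2) : ∀ j, d j = 0 := by
  have h3 : ∑ j, (c j + 2 * d j) ^ 2 - 2 * ∑ j, (c j + d j) ^ 2 + ∑ j, c j ^ 2 =
      2 * ∑ j, d j ^ 2 := by
    simp only [mul_sum, ← sum_sub_distrib, ← sum_add_distrib]
    exact sum_congr rfl fun j _ => by ring
  have h4 : ∑ j, d j ^ 2 = 0 := by omega
  intro j
  exact pow_eq_zero_iff two_ne_zero |>.1
    ((sum_eq_zero_iff_of_nonneg fun j _ => sq_nonneg (d j)).1 h4 j (mem_univ j))

/-- An instruction that only changes the registers. -/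
def dummy (U : Finset (Cf r)) (k n : ℕ) (rel : Cf r → Cf r → Prop) :
    Instr (Var k n) (Cf r) (Md U k) k where
  label _ := firstLeaf k n
  enter t m := m.1.1 = t
  leave m _ t := rel m.1.1 t

/-- Read a leaf. -/
def leafI (U : Finset (Cf r)) (f : Fin k → ℤ) : Instr (Var k 0) (Cf r) (Md U k) k where
  label _ := Var.leaf
  enter t m := m.1.1 = t
  leave m y t := t = (m.1.1.1, f y :: m.1.1.2)

/-- Read the table of a node. -/
def center (U : Finset (Cf r)) (u : Fin k → Fin r → ℤ) (n : ℕ) (f : Fin k → ℤ) :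
    Instr (Var k (n + 1)) (Cf r) (Md U k) k where
  label m := Var.node m.2.1 m.2.2
  enter t m := m.1.1 = t
  leave m z t := ∃ s, m.1.1.2 = nrm false (m.1.1.1 - emb false (u m.2.1)) ::
      nrm true (m.1.1.1 - emb true (u m.2.2)) :: s ∧
    t = (m.1.1.1 - 2 • emb false (u m.2.1) - 2 • emb true (u m.2.2),
      nrm false (m.1.1.1 - emb false (u m.2.1)) :: nrm true (m.1.1.1 - emb true (u m.2.2)) ::
        f z :: s)

/-- Add the vector of a value to a register, coordinate by coordinate. -/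
def addP (U : Finset (Cf r)) (u : Fin k → Fin r → ℤ) {n n' : ℕ} (φ : Var k n → Var k n')
    (sd : Bool) (P : (Fin k → ℤ) → List (Instr (Var k n) (Cf r) (Md U k) k)) :
    List (Fin r) → List (Instr (Var k n') (Cf r) (Md U k) k)
  | [] => []
  | j :: js => (P fun x => u x j).map (Instr.map φ (Equiv.refl _)) ++
      dummy U k n' (fun t t' => ∃ ζ s, t.2 = ζ :: s ∧ t' = (t.1 + Pi.single (sd, j) ζ, s)) ::
      addP U u φ sd P js

/-- The program that pushes `f` of the value of the root. -/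
def prog2 (U : Finset (Cf r)) (u : Fin k → Fin r → ℤ) :
    (n : ℕ) → (Fin k → ℤ) → List (Instr (Var k n) (Cf r) (Md U k) k)
  | 0, f => [leafI U f]
  | n + 1, f =>
    dummy U k (n + 1) (fun t t' => t' = (t.1, nrm false t.1 :: nrm true t.1 :: t.2)) ::
    (addP U u Var.left false (prog2 U u n) (List.finRange r) ++
    (addP U u Var.right true (prog2 U u n) (List.finRange r) ++
    center U u n f ::
    (addP U u Var.left false (prog2 U u n) (List.finRange r) ++
    (addP U u Var.right true (prog2 U u n) (List.finRange r) ++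
    [dummy U k (n + 1) fun t t' => t = (t'.1, nrm false t'.1 :: nrm true t'.1 :: t'.2)]))))

/-- The number of instructions. -/
def plen (r : ℕ) : ℕ → ℕ
  | 0 => 1
  | n + 1 => 4 * (r * (plen r n + 1)) + 3

variable {U : Finset (Cf r)} {u : Fin k → Fin r → ℤ}

theorem addP_length {n n' : ℕ} (φ : Var k n → Var k n') (sd : Bool)
    (P : (Fin k → ℤ) → List (Instr (Var k n) (Cf r) (Md U k) k)) {c : ℕ} (hP : ∀ f, (P f).length = c)
    (js : List (Fin r)) : (addP U u φ sd P js).length = js.length * (c + 1) := by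
  induction js with
  | nil => simp [addP]
  | cons j js ih => simp [addP, ih, hP]; ring

theorem prog2_length : ∀ (n : ℕ) (f : Fin k → ℤ), (prog2 U u n f).length = plen r n
  | 0, f => rfl
  | n + 1, f => by
    simp only [prog2, plen, List.length_cons, List.length_append, List.length_nil,
      addP_length _ _ _ (prog2_length n), List.length_finRange]
    ring

theorem addP_sound {n n' : ℕ} (φ : Var k n → Var k n') (sd : Bool)
    (P : (Fin k → ℤ) → List (Instr (Var k n) (Cf r) (Md U k) k)) (I : Var k n' → Fin k) (x : Fin k)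
    (hP : ∀ f t l t', Run (fun v => I (φ v)) (P f) t l t' →
      t' = (t.1, f x :: t.2) ∧ ∀ v ∈ l, Thrifty n' I (φ v)) (js : List (Fin r)) :
    ∀ t l t', Run I (addP U u φ sd P js) t l t' →
      t' = (t.1 + (js.map fun j => (Pi.single (sd, j) (u x j) : Bool × Fin r → ℤ)).sum, t.2) ∧
      ∀ v ∈ l, Thrifty n' I v := by
  induction js with
  | nil =>
    intro t l t' h
    obtain ⟨rfl, rfl⟩ := run_nil.1 h
    simp
  | cons j js ih =>
    intro t l t' h
    simp only [addP, run_append, run_cons, run_map] at h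
    obtain ⟨t1, _, _, rfl, ⟨l1, rfl, h1⟩, m, t2, l2, rfl, h2, ⟨ζ, s, h3, h4⟩, h5⟩ := h
    obtain ⟨a1, a2⟩ := hP _ _ _ _ h1
    obtain ⟨b1, b2⟩ := ih _ _ _ h5
    simp only [Equiv.refl_apply] at a1
    have h2' : m.1.1 = t1 := h2
    rw [h2', a1] at h3 h4
    obtain ⟨rfl, rfl⟩ := List.cons.inj h3
    refine ⟨by rw [b1, h4]; simp [add_assoc], fun v hv => ?_⟩
    simp only [List.mem_append, List.mem_map, List.mem_cons] at hv
    rcases hv with ⟨w, hw, rfl⟩ | rfl | hv
    · exact a2 w hw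
    · exact thrifty_firstLeaf n' I
    · exact b2 v hv

theorem prog2_sound (hu : Function.Injective u) : ∀ (n : ℕ) (I : Var k n → Fin k)
    (f : Fin k → ℤ) (t : Cf r) (l : List (Var k n)) (t' : Cf r), Run I (prog2 U u n f) t l t' →
    t' = (t.1, f (value n I) :: t.2) ∧ ∀ v ∈ l, Thrifty n I v
  | 0, I, f, t, l, t' => by
    intro h
    simp only [prog2, run_cons, run_nil] at h
    obtain ⟨m, t1, l', rfl, h1, h2, rfl, rfl⟩ := h
    obtain rfl : m.1.1 = t := h1
    refine ⟨h2, fun v hv => ?_⟩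
    obtain rfl := List.mem_singleton.1 hv
    exact Thrifty.leaf I
  | n + 1, I, f, t, l, t' => by
    intro h
    simp only [prog2, run_append, run_cons, run_nil] at h
    obtain ⟨m0, t1, _, rfl, e0, e1, t2, l1, _, rfl, h1, t3, l2, _, rfl, h2, m, t4, _, rfl, e3,
      ⟨s, e4, e5⟩, t5, l3, _, rfl, h3, t6, l4, _, rfl, h4, m1, t7, _, rfl, e6, e7, rfl, rfl⟩ := h
    set x := value n fun v => I (Var.left v) with hx
    set y := value n fun v => I (Var.right v) with hy
    have sL := addP_sound (U := U) (u := u) Var.left false (prog2 U u n) I x (fun f t l t' h =>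
      ⟨(prog2_sound hu n _ f t l t' h).1, fun v hv =>
        Thrifty.left I v ((prog2_sound hu n _ f t l t' h).2 v hv)⟩) (List.finRange r)
    have sR := addP_sound (U := U) (u := u) Var.right true (prog2 U u n) I y (fun f t l t' h =>
      ⟨(prog2_sound hu n _ f t l t' h).1, fun v hv =>
        Thrifty.right I v ((prog2_sound hu n _ f t l t' h).2 v hv)⟩) (List.finRange r)
    rw [sum_single] at sL sR
    obtain ⟨a1, c1⟩ := sL _ _ _ h1
    obtain ⟨a2, c2⟩ := sR _ _ _ h2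
    obtain ⟨a3, c3⟩ := sL _ _ _ h3
    obtain ⟨a4, c4⟩ := sR _ _ _ h4
    obtain ⟨mt, x', y'⟩ := m
    have e0' : m0.1.1 = t := e0
    have e1' : t1 = (m0.1.1.1, nrm false m0.1.1.1 :: nrm true m0.1.1.1 :: m0.1.1.2) := e1
    have e3' : mt.1 = t3 := e3
    have e6' : m1.1.1 = t6 := e6
    have e7' : m1.1.1 = (t'.1, nrm false t'.1 :: nrm true t'.1 :: t'.2) := e7
    simp only at e4 e5
    rw [e0'] at e1'
    rw [e6'] at e7'
    rw [e3'] at e4 e5
    subst e1'
    subst a1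
    subst a2
    subst e5
    subst a3
    rw [a4] at e7'
    simp only [Prod.mk.injEq, List.cons.injEq] at e4 e7'
    obtain ⟨p1, p2, rfl⟩ := e4
    obtain ⟨q0, q1, q2, q3⟩ := e7'
    rw [← q0] at q1 q2
    obtain rfl : x = x' := by
      refine hu (funext fun j => sub_eq_zero.1 (ap_free (fun j => t.1 (false, j))
        (fun j => u x j - u x' j) ?_ ?_ j))
      · refine Eq.trans (sum_congr rfl fun j _ => ?_) p1.symm
        simp [emb]; ring
      · refine Eq.trans (sum_congr rfl fun j _ => ?_) (q1.symm.trans p1.symm)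
        simp [emb]; ring
    obtain rfl : y = y' := by
      refine hu (funext fun j => sub_eq_zero.1 (ap_free (fun j => t.1 (true, j))
        (fun j => u y j - u y' j) ?_ ?_ j))
      · refine Eq.trans (sum_congr rfl fun j _ => ?_) p2.symm
        simp [emb]; ring
      · refine Eq.trans (sum_congr rfl fun j _ => ?_) (q2.symm.trans p2.symm)
        simp [emb]; ring
    refine ⟨Prod.ext ?_ q3.symm, fun v hv => ?_⟩
    · rw [← q0]
      simp only [two_smul]
      abel
    · simp only [List.mem_append, List.mem_cons, List.not_mem_nil, or_false] at hv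
      rcases hv with rfl | hv | hv | rfl | hv | hv | rfl
      · exact thrifty_firstLeaf _ I
      · exact c1 v hv
      · exact c2 v hv
      · exact Thrifty.node I
      · exact c3 v hv
      · exact c4 v hv
      · exact thrifty_firstLeaf _ I

/-- Bounded configurations. -/
def Good (q E : ℤ) (D ℓ : ℕ) (t : Cf r) : Prop :=
  (∀ p, |t.1 p| ≤ D * q) ∧ t.2.length ≤ ℓ ∧ ∀ e ∈ t.2, |e| ≤ E

theorem Good.mono {q E : ℤ} (hq : 0 ≤ q) {D ℓ D' ℓ' : ℕ} {t : Cf r} (h : Good q E D ℓ t)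
    (h1 : D ≤ D') (h2 : ℓ ≤ ℓ') : Good q E D' ℓ' t :=
  ⟨fun p => (h.1 p).trans (mul_le_mul_of_nonneg_right (by exact_mod_cast h1) hq), h.2.1.trans h2,
    h.2.2⟩

theorem Good.push {q E : ℤ} {D ℓ : ℕ} {t : Cf r} (h : Good q E D ℓ t) {e : ℤ} (he : |e| ≤ E) :
    Good q E D (ℓ + 1) (t.1, e :: t.2) :=
  ⟨h.1, by simpa using h.2.1, fun e' he' => by
    rcases List.mem_cons.1 he' with rfl | h'
    · exact he
    · exact h.2.2 e' h'⟩

theorem Good.add {q E : ℤ} {D ℓ c : ℕ} {t : Cf r} (h : Good q E D ℓ t) {d : Bool × Fin r → ℤ}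
    (hd : ∀ p, |d p| ≤ c * q) : Good q E (D + c) ℓ (t.1 + d, t.2) :=
  ⟨fun p => by
    have := h.1 p
    have := hd p
    have := abs_add_le (t.1 p) (d p)
    simp only [Pi.add_apply]
    push_cast
    linarith, h.2.1, h.2.2⟩

theorem addP_complete {q E : ℤ} (hq : 0 ≤ q) (hE : q ≤ E) (hu : ∀ x j, |u x j| ≤ q) {Dm ℓm : ℕ}
    (hU : ∀ t, Good q E Dm ℓm t → t ∈ U) {n n' : ℕ} (φ : Var k n → Var k n') (sd : Bool)
    (P : (Fin k → ℤ) → List (Instr (Var k n) (Cf r) (Md U k) k)) (I : Var k n' → Fin k) (x : Fin k)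
    {D0 ℓ : ℕ} (hD : D0 ≤ Dm) (hℓ : ℓ + 1 ≤ ℓm)
    (hP : ∀ f, (∀ x, |f x| ≤ q) → ∀ t, Good q E D0 ℓ t →
      ∃ l, Run (fun v => I (φ v)) (P f) t l (t.1, f x :: t.2)) (js : List (Fin r)) :
    ∀ D t, Good q E D ℓ t → D + js.length ≤ D0 → ∃ l, Run I (addP U u φ sd P js) t l
      (t.1 + (js.map fun j => (Pi.single (sd, j) (u x j) : Bool × Fin r → ℤ)).sum, t.2) := by
  induction js with
  | nil =>
    intro D t _ _
    exact ⟨[], by simpa [addP] using Run.nil t⟩
  | cons j js ih =>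
    intro D t h hl
    rw [List.length_cons] at hl
    obtain ⟨l1, h1⟩ := hP (fun x => u x j) (fun x => hu x j) t (h.mono hq (by omega) le_rfl)
    have g1 := (h.push ((hu x j).trans hE)).mono hq (show D ≤ Dm by omega) hℓ
    have g2 := h.add (c := 1) (d := Pi.single (sd, j) (u x j)) (fun p => by
      rw [Pi.single_apply]
      split_ifs
      · simpa using hu x j
      · simpa using hq)
    obtain ⟨l2, h2⟩ := ih (D + 1) _ g2 (by omega)
    refine ⟨_, run_append.2 ⟨(t.1, u x j :: t.2), _, _, rfl, (run_map _ _).2 ⟨l1, rfl, h1⟩,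
      Run.cons (m := (Subtype.mk _ (hU _ g1), x, x)) (t' := (t.1 + Pi.single (sd, j) (u x j), t.2))
        (l := l2) rfl
        ⟨_, _, rfl, rfl⟩ ?_⟩⟩
    simpa [add_assoc] using h2

theorem emb_le {q : ℤ} (hq : 0 ≤ q) (sd : Bool) {d : Fin r → ℤ} (hd : ∀ j, |d j| ≤ q)
    (p : Bool × Fin r) : |emb sd d p| ≤ q := by
  unfold emb
  split_ifs
  · exact hd _
  · simpa using hq

theorem nrm_le {q E : ℤ} {D ℓ : ℕ} {t : Cf r} (h : Good q E D ℓ t) (sd : Bool) :
    |nrm sd t.1| ≤ r * (D * q) ^ 2 := by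
  rw [abs_of_nonneg (sum_nonneg fun j _ => sq_nonneg _)]
  refine (sum_le_card_nsmul _ _ ((D * q) ^ 2) fun j _ => ?_).trans (by simp)
  exact sq_le_sq' (abs_le.1 (h.1 _)).1 (abs_le.1 (h.1 _)).2

theorem prog2_complete {q E : ℤ} (hq : 0 ≤ q) (hE : q ≤ E) (hu : ∀ x j, |u x j| ≤ q) {Dm ℓm : ℕ}
    (hE' : r * (Dm * q) ^ 2 ≤ E) (hU : ∀ t, Good q E Dm ℓm t → t ∈ U) :
    ∀ (n : ℕ) (I : Var k n → Fin k) (D ℓ : ℕ), D + (r + 4) * n ≤ Dm → ℓ + 3 * n + 1 ≤ ℓm →
    ∀ f : Fin k → ℤ, (∀ x, |f x| ≤ q) → ∀ t, Good q E D ℓ t →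
      ∃ l, Run I (prog2 U u n f) t l (t.1, f (value n I) :: t.2)
  | 0, I, D, ℓ, hD, hℓ, f, hf, t, h =>
    ⟨_, Run.cons (ins := leafI U f)
      (m := (⟨t, hU t (h.mono hq (by omega) (by omega))⟩, I Var.leaf, I Var.leaf)) rfl rfl
      (Run.nil _)⟩
  | n + 1, I, D, ℓ, hD, hℓ, f, hf, t, h => by
    set x := value n fun v => I (Var.left v) with hx
    set y := value n fun v => I (Var.right v) with hy
    rw [mul_add, mul_one] at hD
    have cL := addP_complete (U := U) hq hE hu hU Var.left false (prog2 U u n) I x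
      (D0 := D + r + 4) (ℓ := ℓ + 3) (by omega) (by omega)
      (prog2_complete hq hE hu hE' hU n _ _ _ (by omega) (by omega)) (List.finRange r)
    have cR := addP_complete (U := U) hq hE hu hU Var.right true (prog2 U u n) I y
      (D0 := D + r + 4) (ℓ := ℓ + 3) (by omega) (by omega)
      (prog2_complete hq hE hu hE' hU n _ _ _ (by omega) (by omega)) (List.finRange r)
    rw [sum_single, List.length_finRange] at cL cR
    have hn : ∀ sd, |nrm sd t.1| ≤ E := fun sd =>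
      (nrm_le (h.mono hq (show D ≤ Dm by omega) le_rfl) sd).trans hE'
    have ex : ∀ p, |emb false (u x) p| ≤ (1 : ℕ) * q := fun p => by
      simpa using emb_le hq false (hu x) p
    have ey : ∀ p, |emb true (u y) p| ≤ (1 : ℕ) * q := fun p => by
      simpa using emb_le hq true (hu y) p
    have ex' : ∀ p, |(-emb false (u x)) p| ≤ (1 : ℕ) * q := fun p => by simpa using ex p
    have ey' : ∀ p, |(-emb true (u y)) p| ≤ (1 : ℕ) * q := fun p => by simpa using ey p
    have g1 := (h.push (hn true)).push (hn false)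
    have g2 := g1.add ex
    have g3 := g2.add ey
    have g0 := ((h.push ((hf (value (n + 1) I)).trans hE)).push (hn true)).push (hn false)
    have g5 := g0.add ey'
    have g4 := g5.add ex'
    obtain ⟨l1, h1⟩ := cL D _ (g1.mono hq le_rfl (by omega)) (by omega)
    obtain ⟨l2, h2⟩ := cR (D + 1) _ (g2.mono hq le_rfl (by omega)) (by omega)
    obtain ⟨l3, h3⟩ := cL (D + 1 + 1) _ g4 (by omega)
    obtain ⟨l4, h4⟩ := cR (D + 1) _ g5 (by omega)
    have k1 : nrm false (t.1 + emb false (u x) + emb true (u y) - emb false (u x)) =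
        nrm false t.1 := sum_congr rfl fun j _ => by simp [emb]
    have k2 : nrm true (t.1 + emb false (u x) + emb true (u y) - emb true (u y)) =
        nrm true t.1 := sum_congr rfl fun j _ => by simp [emb]
    simp only [neg_add_cancel_right] at h3 h4
    refine ⟨_, Run.cons (m := (Subtype.mk t (hU t (h.mono hq (by omega) (by omega))), x, x)) rfl rfl
      (run_append.2 ⟨_, _, _, rfl, h1, run_append.2 ⟨_, _, _, rfl, h2,
        Run.cons (m := (Subtype.mk _ (hU _ (g3.mono hq (by omega) (by omega))), x, y)) rfl ⟨t.2, ?_, ?_⟩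
          (run_append.2 ⟨_, _, _, rfl, h3, run_append.2 ⟨_, _, _, rfl, h4,
            Run.cons (m := (Subtype.mk _ (hU _ (g0.mono hq (by omega) (by omega))), x, x))
              (t' := (t.1, f (value (n + 1) I) :: t.2)) rfl rfl
              (Run.nil _)⟩⟩)⟩⟩)⟩
    · simp only [k1, k2]
    · simp only [k1, k2]
      refine Prod.ext ?_ rfl
      simp only [two_smul]
      abel

theorem exists_box (r : ℕ) (q E Dm ℓm : ℕ) : ∃ U : Finset (Cf r),
    (∀ t, Good (q : ℤ) (E : ℤ) Dm ℓm t → t ∈ U) ∧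
    #U ≤ (2 * (Dm * q) + 1) ^ (2 * r) * ((ℓm + 1) * (2 * E + 1) ^ ℓm) := by
  refine ⟨(Fintype.piFinset fun _ => Icc (-(Dm * q : ℤ)) (Dm * q)) ×ˢ
    (range (ℓm + 1)).biUnion fun i =>
      (Fintype.piFinset fun _ : Fin i => Icc (-(E : ℤ)) E).image List.ofFn, ?_, ?_⟩
  · rintro ⟨a, s⟩ ⟨h1, h2, h3⟩
    refine mem_product.2 ⟨Fintype.mem_piFinset.2 fun p => mem_Icc.2 (abs_le.1 (h1 p)),
      mem_biUnion.2 ⟨s.length, mem_range.2 (Nat.lt_succ_of_le h2),
        mem_image.2 ⟨s.get, Fintype.mem_piFinset.2 fun i =>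
          mem_Icc.2 (abs_le.1 (h3 _ (List.get_mem s i))), List.ofFn_get s⟩⟩⟩
  · rw [card_product]
    refine Nat.mul_le_mul (le_of_eq ?_) (card_biUnion_le.trans ?_)
    · rw [Fintype.card_piFinset, prod_const, Int.card_Icc, card_univ, Fintype.card_prod,
        Fintype.card_bool, Fintype.card_fin]
      congr 1
      rw [← Nat.cast_mul]
      omega
    · refine (sum_le_card_nsmul _ _ ((2 * E + 1) ^ ℓm) fun i hi => ?_).trans (by simp)
      refine card_image_le.trans ?_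
      rw [Fintype.card_piFinset, prod_const, Int.card_Icc, card_univ, Fintype.card_fin,
        show ((E : ℤ) + 1 - -(E : ℤ)).toNat = 2 * E + 1 by omega]
      exact Nat.pow_le_pow_right (by omega) (Nat.lt_succ_iff.1 (mem_range.1 hi))

theorem upper_core (n r : ℕ) : ∃ C : ℕ, ∀ k q : ℕ, 1 ≤ k → 1 ≤ q → k ≤ q ^ r →
    ∀ (R : Type) (π : Fin k → R), ∃ B : NBP (Var k n) R k,
    B.Computes (fun I => π (value n I)) ∧ B.IsThrifty ∧
      B.inner ≤ C * (q ^ (2 * r + 2 * (3 * n + 1)) * k ^ 2) := by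
  set Dm := r + (r + 4) * n with hDm
  set ℓm := 3 * n + 1 with hℓm
  refine ⟨(r * (plen r n + 1) + 1) * ((2 * Dm + 1) ^ (2 * r) *
    ((ℓm + 1) * (2 * (r * Dm ^ 2 + 1) + 1) ^ ℓm)), fun k q hk hq hkq R π => ?_⟩
  set E := (r * Dm ^ 2 + 1) * q ^ 2 with hE
  obtain ⟨U, hU, hUc⟩ := exists_box r q E Dm ℓm
  obtain ⟨e⟩ : Nonempty (Fin k ↪ (Fin r → Fin q)) :=
    Function.Embedding.nonempty_of_card_le (by simpa using hkq)
  let u : Fin k → Fin r → ℤ := fun x j => ((e x j : ℕ) : ℤ)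
  have hu : Function.Injective u := fun x y h => e.injective (funext fun j => Fin.ext (by
    have := congrFun h j
    simpa [u] using this))
  have hub : ∀ x j, |u x j| ≤ q := fun x j => by
    have := (e x j).2
    simp only [u, Nat.abs_cast]
    omega
  have hq0 : (0 : ℤ) ≤ q := by positivity
  have hq1 : (1 : ℤ) ≤ q := by exact_mod_cast hq
  have hE1 : (q : ℤ) ≤ E := by
    rw [hE]; push_cast
    nlinarith [mul_nonneg (by positivity : (0 : ℤ) ≤ r * Dm ^ 2) (sq_nonneg (q : ℤ))]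
  have hE2 : (r : ℤ) * (Dm * q) ^ 2 ≤ E := by
    rw [hE]; push_cast
    nlinarith [sq_nonneg (q : ℤ)]
  let x0 : Fin k := ⟨0, hk⟩
  let t0 : Cf r := (0, [])
  have g0 : Good (q : ℤ) E 0 0 t0 := ⟨fun p => by simp [t0], le_rfl, fun e he => by simp [t0] at he⟩
  let m0 : Md U k := (⟨t0, hU _ (g0.mono hq0 (Nat.zero_le _) (Nat.zero_le _))⟩, x0, x0)
  let ins : Instr (Var k n) (Cf r) (Md U k) k :=
    ⟨fun _ => firstLeaf k n, fun _ m => m = m0, fun _ _ t => t = t0⟩
  obtain ⟨B, h1, h2, h3⟩ := compile ins (addP U u id false (prog2 U u n) (List.finRange r)) t0 m0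
    (fun _ => Iff.rfl) (fun t ρ => ∃ y, t.1 = emb false (u y) ∧ ρ = π y)
    (fun I => π (value n I)) (Thrifty n) (by
      intro I l t ρ h ⟨y, hy, hr⟩
      obtain ⟨m, t1, l', rfl, -, rfl, h4⟩ := run_cons.1 h
      obtain ⟨h5, h6⟩ := addP_sound (U := U) (u := u) id false (prog2 U u n) I (value n I)
        (fun f t l t' h => prog2_sound hu n I f t l t' h) _ _ _ _ h4
      rw [sum_single] at h5
      obtain rfl : y = value n I := by
        refine hu (funext fun j => ?_)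
        have := congrFun hy (false, j)
        rw [h5] at this
        simpa [emb, t0] using this.symm
      refine ⟨hr, fun v hv => ?_⟩
      rcases List.mem_cons.1 hv with rfl | hv
      · exact thrifty_firstLeaf n I
      · exact h6 v hv) (by
      intro I
      obtain ⟨l, h⟩ := addP_complete (U := U) hq0 hE1 hub hU id false (prog2 U u n) I (value n I)
        (D0 := r) (ℓ := 0) (by omega) (by omega)
        (prog2_complete hq0 hE1 hub hE2 hU n I r 0 le_rfl (by omega)) (List.finRange r) 0 t0 g0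
        (by simp)
      rw [sum_single] at h
      exact ⟨_, _, Run.cons (ins := ins) (m := m0) (t' := t0) rfl rfl h, value n I,
        by simp [t0], rfl⟩)
  refine ⟨B, h2, h3, ?_⟩
  rw [h1, addP_length _ _ _ (prog2_length n), List.length_finRange, mul_assoc]
  refine Nat.mul_le_mul_left _ ?_
  simp only [Fintype.card_prod, Fintype.card_coe, Fintype.card_fin]
  rw [← sq, ← mul_assoc]
  refine Nat.mul_le_mul_right _ (hUc.trans ?_)
  have a1 : 2 * (Dm * q) + 1 ≤ (2 * Dm + 1) * q := by nlinarith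
  have a2 : 2 * E + 1 ≤ (2 * (r * Dm ^ 2 + 1) + 1) * q ^ 2 := by
    have : 1 ≤ q ^ 2 := Nat.one_le_pow _ _ hq
    rw [hE]; nlinarith
  calc (2 * (Dm * q) + 1) ^ (2 * r) * ((ℓm + 1) * (2 * E + 1) ^ ℓm)
      ≤ ((2 * Dm + 1) * q) ^ (2 * r) *
        ((ℓm + 1) * ((2 * (r * Dm ^ 2 + 1) + 1) * q ^ 2) ^ ℓm) := by gcongr
    _ = _ := by
      rw [mul_pow, mul_pow, ← pow_mul, pow_add]
      ring

theorem upper (ε : ℝ) (hε : 0 < ε) (n : ℕ) : ∃ k0 : ℕ, ∀ k, k0 ≤ k →
    ∀ (R : Type) (π : Fin k → R), ∃ B : NBP (Var k n) R k,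
    B.Computes (fun I => π (value n I)) ∧ B.IsThrifty ∧ (B.inner : ℝ) ≤ (k : ℝ) ^ (4 + ε) := by
  obtain ⟨r, hr⟩ := exists_nat_gt (4 * (3 * n + 1) / ε)
  have hr0 : (0 : ℝ) < r := lt_trans (by positivity) hr
  obtain ⟨C, hC⟩ := upper_core n r
  set e := 2 * r + 2 * (3 * n + 1) with he
  have ht : Filter.Tendsto (fun k : ℕ => (k : ℝ) ^ (ε / 2)) Filter.atTop Filter.atTop :=
    (tendsto_rpow_atTop (by positivity)).comp tendsto_natCast_atTop_atTop
  obtain ⟨k0, hk0⟩ := Filter.eventually_atTop.1 (ht.eventually_ge_atTop (C * 2 ^ e))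
  refine ⟨max k0 1, fun k hk R π => ?_⟩
  have h2 := hk0 k (le_of_max_le_left hk)
  have hk1 : (1 : ℝ) ≤ k := by exact_mod_cast le_of_max_le_right hk
  have hk' : (0 : ℝ) < k := by linarith
  set ρ : ℝ := (k : ℝ) ^ (r : ℝ)⁻¹ with hρ
  have hρ1 : 1 ≤ ρ := Real.one_le_rpow hk1 (by positivity)
  have hq1 : (⌈ρ⌉₊ : ℝ) ≤ 2 * ρ := by
    have := Nat.ceil_lt_add_one (show 0 ≤ ρ by linarith)
    linarith
  have hρr : ρ ^ r = k := Real.rpow_inv_natCast_pow hk'.le (by exact_mod_cast hr0.ne')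
  obtain ⟨B, h3, h4, h5⟩ := hC k ⌈ρ⌉₊ (le_of_max_le_right hk) (Nat.one_le_ceil_iff.2 (by linarith))
    (by
      have : (k : ℝ) ≤ (⌈ρ⌉₊ : ℝ) ^ r := by
        rw [← hρr]
        exact pow_le_pow_left₀ (by linarith) (Nat.le_ceil ρ) r
      exact_mod_cast this) R π
  refine ⟨B, h3, h4, ?_⟩
  have h6 : (B.inner : ℝ) ≤ C * ((⌈ρ⌉₊ : ℝ) ^ e * (k : ℝ) ^ 2) := by exact_mod_cast h5
  have h7 : ρ ^ e ≤ (k : ℝ) ^ (2 + ε / 2) := by
    rw [hρ, ← Real.rpow_natCast, ← Real.rpow_mul hk'.le]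
    refine Real.rpow_le_rpow_of_exponent_le hk1 ?_
    rw [inv_mul_le_iff₀ hr0, he]
    rw [div_lt_iff₀ hε] at hr
    push_cast
    nlinarith
  have h8 : (k : ℝ) ^ (4 + ε) = (k : ℝ) ^ (ε / 2) * ((k : ℝ) ^ (2 + ε / 2) * (k : ℝ) ^ 2) := by
    rw [← Real.rpow_natCast, ← Real.rpow_add hk', ← Real.rpow_add hk']
    congr 1
    push_cast
    ring
  calc (B.inner : ℝ) ≤ C * ((⌈ρ⌉₊ : ℝ) ^ e * (k : ℝ) ^ 2) := h6
    _ ≤ C * ((2 * ρ) ^ e * (k : ℝ) ^ 2) := by gcongr
    _ = C * 2 ^ e * (ρ ^ e * (k : ℝ) ^ 2) := by rw [mul_pow]; ring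
    _ ≤ (k : ℝ) ^ (ε / 2) * ((k : ℝ) ^ (2 + ε / 2) * (k : ℝ) ^ 2) := by gcongr
    _ = _ := h8.symm

end Pool.Agent.MP_47ff19_lc.H70
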