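import Pool.Agent.MP_47ff19_lc.H70.Lower
import Pool.Agent.MP_47ff19_lc.H70.Upper

namespace Pool.Agent.Results.MP_47ff19_lc.ThriftyExponent

open Pool.Agent.MP_47ff19_lc

/-- The exponent of the size of nondeterministic thrifty branching programs for tree evaluation is at
most `4` for every height and tends to `4` when the height grows. -/
theorem result (ε : ℝ) (hε : 0 < ε) : ∃ n₀ : ℕ, ∀ n : ℕ, ∃ k₀ : ℕ, ∀ k : ℕ, k₀ ≤ k →
    ∀ (R : Type) (π : Fin k → R), (∃ a b, π a ≠ π b) →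
      (∃ B : NBP (Var k n) R k, B.Computes (fun I => π (value n I)) ∧ B.IsThrifty ∧
        (B.inner : ℝ) ≤ (k : ℝ) ^ (4 + ε)) ∧
      (n₀ ≤ n → ∀ B : NBP (Var k n) R k, B.Computes (fun I => π (value n I)) → B.IsThrifty →
        (k : ℝ) ^ (4 - ε) ≤ (B.inner : ℝ)) := by
  obtain ⟨n0, h⟩ := H70.lower ε hε
  refine ⟨n0, fun n => ?_⟩
  obtain ⟨k2, h2⟩ := H70.upper ε hε n
  by_cases hn : n0 ≤ n
  · obtain ⟨k1, h1⟩ := h n hn
    exact ⟨max k1 k2, fun k hk R π hπ => ⟨h2 k (le_of_max_le_right hk) R π,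
      fun _ => h1 k (le_of_max_le_left hk) R π hπ⟩⟩
  · exact ⟨k2, fun k hk R π _ => ⟨h2 k hk R π, fun h' => absurd h' hn⟩⟩

end Pool.Agent.Results.MP_47ff19_lc.ThriftyExponent
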